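import Pool.Agent.Mond61F.M6

set_option autoImplicit false

namespace Pool.Agent.Mond61F

open Pool.Agent.LibMX34 (TA)

/-- the hypothesis `hne` of `R_cert` -/
theorem hne_A (k : Type) [Field k] [CharZero k] :
    (Fin.cons 0 (Fin.cons (MvPowerSeries.subst (LibMX34.unf k (LibMX34.Phi0 k TA)) (16 * LibGF7.zS k W0T - LibGF7.zS k WAT) * MvPowerSeries.X 0)
      (Fin.cons (MvPowerSeries.subst (LibMX34.unf k (LibMX34.Phi0 k TA)) (16 * LibGF7.zS k W1T) * MvPowerSeries.X 0 +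
        MvPowerSeries.subst (LibMX34.unf k (LibMX34.Phi0 k TA)) (16 * LibGF7.zS k W2T - LibGF7.zS k WAT) * MvPowerSeries.X 1)
      (Fin.cons 0 fun _ : Fin 6 => 0))) : Fin 10 → MvPowerSeries (Fin 9) k) ∉
      LibMX34.tangentSource k (LibMX34.unf k (LibMX34.Phi0 k TA)) ⊔ LibMX34.tangentTarget k (LibMX34.unf k (LibMX34.Phi0 k TA)) :=
  hne k

end Pool.Agent.Mond61F
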