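import Pool.Agent.Mond61F.Defs

set_option autoImplicit false

namespace Pool.Agent.Mond61F

theorem c1_0 : chk1 0 = true := by decide +kernel
theorem c1_1 : chk1 1 = true := by decide +kernel
theorem c1_2 : chk1 2 = true := by decide +kernel

end Pool.Agent.Mond61F
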