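import Pool.Agent.Mond61F.Defs

set_option autoImplicit false

namespace Pool.Agent.Mond61F

theorem oke0 : and (okE ep0) (okE em0) = true := by decide +kernel
theorem oke1 : and (okE ep1) (okE em1) = true := by decide +kernel
theorem oke2 : and (okE ep2) (okE em2) = true := by decide +kernel
theorem oke3 : and (okE ep3) (okE em3) = true := by decide +kernel

theorem c2_0 : chk2 n0 = true := by decide +kernel
theorem c2_1 : chk2 n1 = true := by decide +kernel
theorem c2_2 : chk2 n2 = true := by decide +kernel
theorem c2_3 : chk2 n3 = true := by decide +kernel

end Pool.Agent.Mond61F
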