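import Pool.Agent.Mond61F.Defs

set_option autoImplicit false

namespace Pool.Agent.Mond61F

theorem c3_3 : chk3 3 = true := by decide +kernel
theorem c3_4 : chk3 4 = true := by decide +kernel
theorem c3_5 : chk3 5 = true := by decide +kernel
theorem c3_6 : chk3 6 = true := by decide +kernel
theorem c3_7 : chk3 7 = true := by decide +kernel
theorem c3_8 : chk3 8 = true := by decide +kernel

end Pool.Agent.Mond61F
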