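import Pool.Agent.Mond61F.Data
import Pool.Agent.Mond61.Contract6

set_option autoImplicit false

/-! The functional (data of helper17): the checks which have to be made. -/

namespace Pool.Agent.Mond61F

open Pool.Agent.Mond61

/-- `x^2 - u1 y + u2 z` -/
def F0 : FD := ⟨[([2,0,0,0,0,0,0,0,0],1), ([0,0,1,0,1,0,0,0,0],1)], [([0,1,0,1,0,0,0,0,0],1)], 2⟩
/-- `y^2 + x z + u1 x + u3 z` -/
def F1 : FD := ⟨[([0,2,0,0,0,0,0,0,0],1), ([1,0,1,0,0,0,0,0,0],1), ([1,0,0,1,0,0,0,0,0],1), ([0,0,1,0,0,1,0,0,0],1)], [], 2⟩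
/-- `z^2 + x y - u2 x + (3 u3 + 2 u4) y` -/
def F2 : FD := ⟨[([0,0,2,0,0,0,0,0,0],1), ([1,1,0,0,0,0,0,0,0],1), ([0,1,0,0,0,1,0,0,0],3), ([0,1,0,0,0,0,1,0,0],2)], [([1,0,0,0,1,0,0,0,0],1)], 2⟩
/-- `y z + u4 x + u5 y + u6 z` -/
def F3 : FD := ⟨[([0,1,1,0,0,0,0,0,0],1), ([1,0,0,0,0,0,1,0,0],1), ([0,1,0,0,0,0,0,1,0],1), ([0,0,1,0,0,0,0,0,1],1)], [], 2⟩

def FF : List FD := [F0, F1, F2, F3]

/-- offset of the digits, bound of the coefficients -/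
def fH : ℕ := 1125899906842624
def fb : ℕ := 400000000

noncomputable def n0 : ℕ := N0 fs fw 64 24 fH 6 ep0 em0
noncomputable def n1 : ℕ := N0 fs fw 64 24 fH 6 ep1 em1
noncomputable def n2 : ℕ := N0 fs fw 64 24 fH 6 ep2 em2
noncomputable def n3 : ℕ := N0 fs fw 64 24 fH 6 ep3 em3

/-- the packed functional `∑ ∂_i F_j ∘ λ_j` -/
noncomputable def Kd (i : ℕ) : ℕ :=
  conK 64 fs fH (RR 64 fs fw 5) [⟨n0, dT i F0.gp, dT i F0.gm⟩, ⟨n1, dT i F1.gp, dT i F1.gm⟩, ⟨n2, dT i F2.gp, dT i F2.gm⟩,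
    ⟨n3, dT i F3.gp, dT i F3.gm⟩]

noncomputable def okE (e : Ex) : Bool := and (e.hom fs fw fV 24 6) (Nat.ble (e.nrm 24) fb)

noncomputable def chk2 (N : ℕ) : Bool := chkL 64 fs fw us uw fH FF 6 N fb

noncomputable def chk3 (i : ℕ) : Bool := chkL 64 fs fw us uw fH FF 5 (Kd i) (Nat.mul (nat_lit 20) fb)

noncomputable def chk1 (i : ℕ) : Bool := zeroAt 64 fH (RR 64 fs fw 5) (Kd i)

end Pool.Agent.Mond61F
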