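import Pool.Agent.Mond61F.WData
import Pool.Agent.Mond61F.Defs

set_option autoImplicit false

/-! Values of the functional. -/

namespace Pool.Agent.Mond61F

open Pool.Agent.Mond61

/-- the functionals `x ∘ λ_1`, `x ∘ λ_2`, `y ∘ λ_2` -/
noncomputable def m0 : ℕ := conK 64 fs fH (RR 64 fs fw 5) [⟨n1, [([1,0,0,0,0,0,0,0,0],1)], []⟩]
noncomputable def m1 : ℕ := conK 64 fs fH (RR 64 fs fw 5) [⟨n2, [([1,0,0,0,0,0,0,0,0],1)], []⟩]
noncomputable def m2 : ℕ := conK 64 fs fH (RR 64 fs fw 5) [⟨n2, [([0,1,0,0,0,0,0,0,0],1)], []⟩]

noncomputable def vl (N : ℕ) (l : TL) : ℕ := valL 64 fs fw us uw fH FF 3 5 N l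

/-- the conditions on a term list -/
def tokb (l : TL) : Bool := l.all fun t => and (Nat.ble t.1.length 5) (and (t.1.all fun v => or (Nat.blt v 4) (Nat.blt (v - 4 + 3) 9))
  (Nat.beq ((t.1.map (wD fw FF 3)).sum) 5))

theorem vW0p : vl m0 lW0p = 17708225792226689024568 := by decide +kernel
theorem vW0m : vl m0 lW0m = 16052891720422409458988 := by decide +kernel
theorem vA0p : vl m0 lAp = 20605193273682928004672 := by decide +kernel
theorem vA0m : vl m0 lAm = 24482558366630120808832 := by decide +kernel
theorem vW1p : vl m1 lW1p = 19126544423058476980192 := by decide +kernel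
theorem vW1m : vl m1 lW1m = 18018145504002138256416 := by decide +kernel
theorem vW2p : vl m2 lW2p = 30666984690719812581248 := by decide +kernel
theorem vW2m : vl m2 lW2m = 35030065254717856711840 := by decide +kernel
theorem vA2p : vl m2 lAp = 20605193274318663974912 := by decide +kernel
theorem vA2m : vl m2 lAm = 24482558366304037765120 := by decide +kernel
theorem slW0p : cs lW0p = 15728064 := by decide +kernel
theorem tlW0p : tokb lW0p = true := by decide +kernel
theorem slW0m : cs lW0m = 14257832 := by decide +kernel
theorem tlW0m : tokb lW0m = true := by decide +kernel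
theorem slW1p : cs lW1p = 16987784 := by decide +kernel
theorem tlW1p : tokb lW1p = true := by decide +kernel
theorem slW1m : cs lW1m = 16003328 := by decide +kernel
theorem tlW1m : tokb lW1m = true := by decide +kernel
theorem slW2p : cs lW2p = 27237754 := by decide +kernel
theorem tlW2p : tokb lW2p = true := by decide +kernel
theorem slW2m : cs lW2m = 31112948 := by decide +kernel
theorem tlW2m : tokb lW2m = true := by decide +kernel
theorem slAp : cs lAp = 18301088 := by decide +kernel
theorem tlAp : tokb lAp = true := by decide +kernel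
theorem slAm : cs lAm = 21744880 := by decide +kernel
theorem tlAm : tokb lAm = true := by decide +kernel

end Pool.Agent.Mond61F
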