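import Pool.Agent.Mond61F.C1
import Pool.Agent.Mond61F.C2
import Pool.Agent.Mond61F.C3

set_option autoImplicit false

/-! The functional: statements in the variables `Fin fs.length`. -/

namespace Pool.Agent.Mond61F

open Pool.Agent.Mond61 MvPolynomial

/-- the exponents with `x = y = z = 0` -/
def emb (m' : List ℕ) : List ℕ := 0 :: 0 :: 0 :: m'

theorem subok : SubOK fs fw us uw emb := by
  intro m' h
  refine ⟨?_, ?_, ?_⟩
  · have h' : m'.length = 6 := h
    change m'.length + 1 + 1 + 1 = 9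
    omega
  · change 1 * 0 + (1 * 0 + (1 * 0 + pos uw m')) = pos uw m'
    omega
  · change 16195 * 0 + (6561 * 0 + (2097 * 0 + pos us m')) = pos us m'
    omega

theorem rp (ep em : Ex) (h : and (okE ep) (okE em) = true) :
    Rep fs fw 64 fH 6 (N0 fs fw 64 24 fH 6 ep em) (mu0 fs fw 24 ep em) fb := by
  unfold okE at h
  simp only [Bool.and_eq_true] at h
  obtain ⟨⟨h1, h2⟩, ⟨h3, h4⟩⟩ := h
  exact rep0 fok (by decide) ep em h1 h3 (Nat.le_of_ble_eq_true h2) (Nat.le_of_ble_eq_true h4) (by decide)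

noncomputable def mu : Fin 4 → (Fin fs.length →₀ ℕ) → ℤ :=
  ![mu0 fs fw 24 ep0 em0, mu0 fs fw 24 ep1 em1, mu0 fs fw 24 ep2 em2, mu0 fs fw 24 ep3 em3]

theorem r0 : Rep fs fw 64 fH 6 n0 (mu 0) fb := rp ep0 em0 oke0
theorem r1 : Rep fs fw 64 fH 6 n1 (mu 1) fb := rp ep1 em1 oke1
theorem r2 : Rep fs fw 64 fH 6 n2 (mu 2) fb := rp ep2 em2 oke2
theorem r3 : Rep fs fw 64 fH 6 n3 (mu 3) fb := rp ep3 em3 oke3

theorem tw_all : (FF.all fun F => and (Nat.blt 0 F.e) (and (twb 9 fw F.e F.gp) (twb 9 fw F.e F.gm))) = true := by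
  decide +kernel

theorem tw_FF : ∀ F ∈ FF, 0 < F.e ∧ TW fs fw F.e F.gp ∧ TW fs fw F.e F.gm := by
  intro F hF
  have := List.all_eq_true.1 tw_all F hF
  rw [Bool.and_eq_true, Bool.and_eq_true] at this
  refine ⟨?_, twb_spec (s := fs) this.2.1, twb_spec (s := fs) this.2.2⟩
  have h := this.1
  simpa [Nat.blt_eq] using h

theorem h2H : 2 * fH < 2 ^ 64 := by decide

theorem good2_0 : Good fs uw emb FF 6 (mu 0) :=
  chkL_spec fok uok subok (by norm_num) h2H FF tw_FF 6 n0 fb (mu 0) (by decide) (by decide) (by decide) r0 c2_0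
theorem good2_1 : Good fs uw emb FF 6 (mu 1) :=
  chkL_spec fok uok subok (by norm_num) h2H FF tw_FF 6 n1 fb (mu 1) (by decide) (by decide) (by decide) r1 c2_1
theorem good2_2 : Good fs uw emb FF 6 (mu 2) :=
  chkL_spec fok uok subok (by norm_num) h2H FF tw_FF 6 n2 fb (mu 2) (by decide) (by decide) (by decide) r2 c2_2
theorem good2_3 : Good fs uw emb FF 6 (mu 3) :=
  chkL_spec fok uok subok (by norm_num) h2H FF tw_FF 6 n3 fb (mu 3) (by decide) (by decide) (by decide) r3 c2_3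

theorem good2 (j : Fin 4) : Good fs uw emb FF 6 (mu j) := by
  fin_cases j
  · exact good2_0
  · exact good2_1
  · exact good2_2
  · exact good2_3

/-- the list for the derivative `∂_i` -/
noncomputable def LL (i : ℕ) : List (CD × ((Fin fs.length →₀ ℕ) → ℤ)) :=
  [(⟨n0, dT i F0.gp, dT i F0.gm⟩, mu 0), (⟨n1, dT i F1.gp, dT i F1.gm⟩, mu 1), (⟨n2, dT i F2.gp, dT i F2.gm⟩, mu 2),
    (⟨n3, dT i F3.gp, dT i F3.gm⟩, mu 3)]

/-- the functional `∑ ∂_i F_j ∘ λ_j` -/
noncomputable def muD (i : ℕ) : (Fin fs.length →₀ ℕ) → ℤ := conF fs (LL i)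

noncomputable def dchk (i : ℕ) : Bool :=
  and (FF.all fun F => and (twb 9 fw 1 (dT i F.gp)) (twb 9 fw 1 (dT i F.gm)))
    (and (Nat.ble (cs (dT i F0.gp) + (cs (dT i F1.gp) + (cs (dT i F2.gp) + (cs (dT i F3.gp) + 0)))) 10)
      (Nat.ble (cs (dT i F0.gm) + (cs (dT i F1.gm) + (cs (dT i F2.gm) + (cs (dT i F3.gm) + 0)))) 10))

theorem dchk_all : ((List.range 9).all dchk) = true := by decide +kernel

theorem rK (i : ℕ) (hi : i < 9) : Rep fs fw 64 fH 5 (Kd i) (muD i) (20 * fb) := by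
  have h := List.all_eq_true.1 dchk_all i (List.mem_range.2 hi)
  unfold dchk at h
  rw [Bool.and_eq_true, Bool.and_eq_true] at h
  obtain ⟨h1, h2, h3⟩ := h
  have h2 : csP ((LL i).map Prod.fst) ≤ 10 := Nat.le_of_ble_eq_true h2
  have h3 : csM ((LL i).map Prod.fst) ≤ 10 := Nat.le_of_ble_eq_true h3
  have h1 := List.all_eq_true.1 h1
  have hT : ∀ F ∈ FF, TW fs fw 1 (dT i F.gp) ∧ TW fs fw 1 (dT i F.gm) := by
    intro F hF
    have := h1 F hF
    rw [Bool.and_eq_true] at this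
    exact ⟨twb_spec (s := fs) this.1, twb_spec (s := fs) this.2⟩
  have t0 := hT F0 (by simp [FF])
  have t1 := hT F1 (by simp [FF])
  have t2 := hT F2 (by simp [FF])
  have t3 := hT F3 (by simp [FF])
  have hfH : fH = 1125899906842624 := rfl
  have hfb : fb = 400000000 := rfl
  refine con_rep (d := 6) (d' := 5) (e := 1) (b := fb) (fok 6 (by decide)) (fok 5 (by decide)) (by norm_num) (by decide) h2H rfl (LL i)
    ?_ ?_ ?_ ?_ ?_ ?_ (by decide)
  · intro c hc
    simp only [LL, List.mem_cons, List.not_mem_nil, or_false] at hc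
    rcases hc with rfl | rfl | rfl | rfl
    · exact r0
    · exact r1
    · exact r2
    · exact r3
  · intro c hc
    simp only [LL, List.mem_cons, List.not_mem_nil, or_false] at hc
    rcases hc with rfl | rfl | rfl | rfl
    · exact t0.1
    · exact t1.1
    · exact t2.1
    · exact t3.1
  · intro c hc
    simp only [LL, List.mem_cons, List.not_mem_nil, or_false] at hc
    rcases hc with rfl | rfl | rfl | rfl
    · exact t0.2
    · exact t1.2
    · exact t2.2
    · exact t3.2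
  · calc csP ((LL i).map Prod.fst) * (2 * fH) ≤ 10 * (2 * fH) := Nat.mul_le_mul_right _ h2
      _ < 2 ^ 64 := by rw [hfH]; norm_num
  · calc csM ((LL i).map Prod.fst) * (2 * fH) ≤ 10 * (2 * fH) := Nat.mul_le_mul_right _ h3
      _ < 2 ^ 64 := by rw [hfH]; norm_num
  · exact Nat.mul_le_mul_right _ (by omega)

theorem zero1 (i : ℕ) (hi : i < 3) (α : Fin fs.length →₀ ℕ) (hα : wt fs fw α = 5) : muD i α = 0 := by
  refine zero_full (fok 5 (by decide)) (by norm_num) (rK i (by omega)) (by decide) h2H ?_ α hα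
  interval_cases i
  · exact c1_0
  · exact c1_1
  · exact c1_2

theorem good3 (i : ℕ) (hi : 3 ≤ i) (hi' : i < 9) : Good fs uw emb FF 5 (muD i) := by
  refine chkL_spec fok uok subok (by norm_num) h2H FF tw_FF 5 (Kd i) (20 * fb) (muD i) (by decide) (by decide) (by decide)
    (rK i hi') ?_
  interval_cases i
  · exact c3_3
  · exact c3_4
  · exact c3_5
  · exact c3_6
  · exact c3_7
  · exact c3_8

end Pool.Agent.Mond61F
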