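import Pool.Agent.Mond61F.M1
import Pool.Agent.LibGF7.Sec
import Pool.Agent.LibMX34.Flag

set_option autoImplicit false

/-! The functional: the conditions `h1, h2, h3` of `LibGF7.not_mem_t` for `Φ = PhiP ℤ TA`. -/

namespace Pool.Agent.Mond61F

open Pool.Agent.Mond61 MvPolynomial
open Pool.Agent.LibMX34 (TA)

theorem plist_cons' (s : List ℕ) (t : List ℕ × ℕ) (l : TL) :
    plist s (t :: l) = C (t.2 : ℤ) * (∏ i : Fin s.length, X i ^ t.1.getD i 0) + plist s l := by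
  have h : (monomial (toFs s t.1) (t.2 : ℤ) : MvPolynomial (Fin s.length) ℤ) = C (t.2 : ℤ) * (∏ i : Fin s.length, X i ^ t.1.getD i 0) := by
    rw [monomial_eq]
    congr 1
    rw [Finsupp.prod_fintype _ _ (fun i => pow_zero _)]
    rfl
  rw [← h]
  unfold plist
  rw [List.map_cons, List.sum_cons]

/-- `plist` in nine variables -/
noncomputable def pl (l : TL) : MvPolynomial (Fin 9) ℤ := plist fs l

theorem pl_nil : pl [] = 0 := rfl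

theorem pl_cons (t : List ℕ × ℕ) (l : TL) : pl (t :: l) = C (t.2 : ℤ) * (∏ i : Fin 9, X i ^ t.1.getD i 0) + pl l :=
  plist_cons' fs t l

theorem F0_eq : pl F0.gp - pl F0.gm = X 0 ^ 2 - X 3 * X 1 + X 4 * X 2 := by
  simp only [F0, pl_cons, pl_nil, Fin.prod_univ_succ]
  simp
  ring

theorem F1_eq : pl F1.gp - pl F1.gm = X 1 ^ 2 + X 0 * X 2 + X 3 * X 0 + X 5 * X 2 := by
  simp only [F1, pl_cons, pl_nil, Fin.prod_univ_succ]
  simp
  ring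

theorem F2_eq : pl F2.gp - pl F2.gm = X 2 ^ 2 + X 0 * X 1 - X 4 * X 0 + (3 * X 5 + 2 * X 6) * X 1 := by
  simp only [F2, pl_cons, pl_nil, Fin.prod_univ_succ]
  simp
  ring

theorem F3_eq : pl F3.gp - pl F3.gm = X 1 * X 2 + X 6 * X 0 + X 7 * X 1 + X 8 * X 2 := by
  simp only [F3, pl_cons, pl_nil, Fin.prod_univ_succ]
  simp
  ring

/-- `f` as integer polynomials -/
noncomputable def PhiZ : Fin 4 → MvPolynomial (Fin 9) ℤ :=
  ![X 0 ^ 2 - X 3 * X 1 + X 4 * X 2, X 1 ^ 2 + X 0 * X 2 + X 3 * X 0 + X 5 * X 2,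
    X 2 ^ 2 + X 0 * X 1 - X 4 * X 0 + (3 * X 5 + 2 * X 6) * X 1, X 1 * X 2 + X 6 * X 0 + X 7 * X 1 + X 8 * X 2]

theorem PhiP_eq : LibGF7.PhiP ℤ TA = PhiZ := by
  have i0 : (LibGF7.ix 0 : Fin (6 + 3)) = 0 := rfl
  have i1 : (LibGF7.ix 1 : Fin (6 + 3)) = 1 := rfl
  have i2 : (LibGF7.ix 2 : Fin (6 + 3)) = 2 := rfl
  have u0 : (LibGF7.iu 0 : Fin (6 + 3)) = 3 := rfl
  have u1 : (LibGF7.iu 1 : Fin (6 + 3)) = 4 := rfl
  have u2 : (LibGF7.iu 2 : Fin (6 + 3)) = 5 := rfl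
  have u3 : (LibGF7.iu 3 : Fin (6 + 3)) = 6 := rfl
  have u4 : (LibGF7.iu 4 : Fin (6 + 3)) = 7 := rfl
  have u5 : (LibGF7.iu 5 : Fin (6 + 3)) = 8 := rfl
  funext j
  fin_cases j
  · simp [LibGF7.PhiP, LibGF7.Lv, TA, Fin.sum_univ_six, PhiZ, i0, i1, i2, u0, u1, u2, u3, u4, u5]
    ring
  · simp [LibGF7.PhiP, LibGF7.Lv, TA, Fin.sum_univ_six, PhiZ, i0, i1, i2, u0, u1, u2, u3, u4, u5]
  · simp [LibGF7.PhiP, LibGF7.Lv, TA, Fin.sum_univ_six, PhiZ, i0, i1, i2, u0, u1, u2, u3, u4, u5]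
    ring
  · simp [LibGF7.PhiP, LibGF7.Lv, TA, Fin.sum_univ_six, PhiZ, i0, i1, i2, u0, u1, u2, u3, u4, u5]

end Pool.Agent.Mond61F
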