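import Pool.Agent.Mond61F.M2

set_option autoImplicit false

/-! The functional: the conditions `h1, h2, h3` of `LibGF7.not_mem_t` for `Φ = PhiP ℤ TA`. -/

namespace Pool.Agent.Mond61F

open Pool.Agent.Mond61 MvPolynomial
open Pool.Agent.LibMX34 (TA)

/-- the exponents of degree `6` -/
noncomputable def S9 : Finset (Fin 9 →₀ ℕ) := Sd fs fw 6

/-- the coefficients of the functional -/
noncomputable def lam9 : Fin 4 → (Fin 9 →₀ ℕ) → ℤ := mu

theorem wt_deg' (s ws : List ℕ) (α : Fin s.length →₀ ℕ) (h : ∀ i : Fin s.length, wf s ws i = 1) :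
    wt s ws α = Finsupp.degree α := by
  unfold wt
  rw [Finsupp.weight_apply, Finsupp.sum_fintype, Finsupp.degree_eq_sum]
  · refine Finset.sum_congr rfl fun i _ => ?_
    rw [h i, smul_eq_mul, mul_one]
  · intro i
    exact zero_smul _ _

theorem wt_deg (α : Fin fs.length →₀ ℕ) : wt fs fw α = Finsupp.degree α := by
  refine wt_deg' fs fw α ?_
  decide

theorem S9_deg (e : Fin 9 →₀ ℕ) (he : e ∈ S9) : Finsupp.degree e = 6 := by
  have h : wt fs fw e = 6 := (mem_Sd (fok 6 (by decide)) e).1 he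
  rw [wt_deg] at h
  exact h

theorem split_ok (ep em : Ex) (h : and (okE ep) (okE em) = true) : ep.hom fs fw fV 24 6 = true ∧ em.hom fs fw fV 24 6 = true := by
  unfold okE at h
  simp only [Bool.and_eq_true] at h
  exact ⟨h.1.1, h.2.1⟩

theorem lam9_zero (j : Fin 4) (α : Fin 9 →₀ ℕ) (hα : α ∉ S9) : lam9 j α = 0 := by
  have h : wt fs fw α ≠ 6 := fun h => hα ((mem_Sd (fok 6 (by decide)) α).2 h)
  fin_cases j
  · exact mu0_zero fok ep0 em0 (split_ok _ _ oke0).1 (split_ok _ _ oke0).2 α h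
  · exact mu0_zero fok ep1 em1 (split_ok _ _ oke1).1 (split_ok _ _ oke1).2 α h
  · exact mu0_zero fok ep2 em2 (split_ok _ _ oke2).1 (split_ok _ _ oke2).2 α h
  · exact mu0_zero fok ep3 em3 (split_ok _ _ oke3).1 (split_ok _ _ oke3).2 α h

/-- the functional as contractions -/
theorem Lf_eq (v : Fin 4 → LibGF7.P ℤ 6) : LibGF7.Lf (r := 6) S9 lam9 v = ∑ j, ct (v j) (lam9 j) 0 := by
  unfold LibGF7.Lf
  exact Finset.sum_congr rfl fun j _ => sum_lam S9 (lam9 j) (lam9_zero j) (v j)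

theorem ct_mon_mul {σ : Type*} (μ : (σ →₀ ℕ) → ℤ) (α : σ →₀ ℕ) (g : MvPolynomial σ ℤ) :
    ct (monomial α 1 * g) μ 0 = ct g μ α := by
  have h := ctl_monomial_mul μ 0 α g
  rw [zero_add] at h
  exact h

theorem ct_sum_right {σ : Type*} {n : ℕ} (g : MvPolynomial σ ℤ) (μ : Fin n → (σ →₀ ℕ) → ℤ) (α : σ →₀ ℕ) :
    ct g (fun α => ∑ j, μ j α) α = ∑ j, ct g (μ j) α := by
  refine MvPolynomial.induction_on' (P := fun g => ctl (fun α => ∑ j, μ j α) α g = ∑ j, ctl (μ j) α g) g ?_ ?_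
  · intro t c
    rw [ctl_monomial, Finset.mul_sum]
    exact Finset.sum_congr rfl fun j _ => (ctl_monomial _ _ _ _).symm
  · intro p q hp hq
    rw [map_add, hp, hq, ← Finset.sum_add_distrib]
    exact Finset.sum_congr rfl fun j _ => (map_add _ _ _).symm

theorem PhiZ0 : (F0.poly fs : MvPolynomial (Fin 9) ℤ) = PhiZ 0 := F0_eq
theorem PhiZ1 : (F1.poly fs : MvPolynomial (Fin 9) ℤ) = PhiZ 1 := F1_eq
theorem PhiZ2 : (F2.poly fs : MvPolynomial (Fin 9) ℤ) = PhiZ 2 := F2_eq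
theorem PhiZ3 : (F3.poly fs : MvPolynomial (Fin 9) ℤ) = PhiZ 3 := F3_eq

theorem pd_poly (F : FD) (i : Fin fs.length) (h1 : ∀ t ∈ F.gp, t.1.length = fs.length) (h2 : ∀ t ∈ F.gm, t.1.length = fs.length) :
    plist fs (dT i F.gp) - plist fs (dT i F.gm) = pderiv i (F.poly fs) := by
  unfold FD.poly
  rw [map_sub, pderiv_plist fs i F.gp h1, pderiv_plist fs i F.gm h2]

theorem len_ok (F : FD) (hF : F ∈ FF) : (∀ t ∈ F.gp, t.1.length = fs.length) ∧ (∀ t ∈ F.gm, t.1.length = fs.length) :=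
  ⟨fun t ht => ((tw_FF F hF).2.1 t ht).1, fun t ht => ((tw_FF F hF).2.2 t ht).1⟩

theorem muD_eq' (i : Fin fs.length) (α : Fin fs.length →₀ ℕ) :
    muD i α = ct (pderiv i (F0.poly fs)) (mu 0) α + (ct (pderiv i (F1.poly fs)) (mu 1) α + (ct (pderiv i (F2.poly fs)) (mu 2) α +
      (ct (pderiv i (F3.poly fs)) (mu 3) α + 0))) := by
  rw [← pd_poly F0 i (len_ok F0 (by simp [FF])).1 (len_ok F0 (by simp [FF])).2,
    ← pd_poly F1 i (len_ok F1 (by simp [FF])).1 (len_ok F1 (by simp [FF])).2,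
    ← pd_poly F2 i (len_ok F2 (by simp [FF])).1 (len_ok F2 (by simp [FF])).2,
    ← pd_poly F3 i (len_ok F3 (by simp [FF])).1 (len_ok F3 (by simp [FF])).2]
  rfl

theorem muD_eq (i : Fin 9) (α : Fin 9 →₀ ℕ) : muD i α = ∑ j, ct (pderiv i (PhiZ j)) (lam9 j) α := by
  rw [Fin.sum_univ_four, ← PhiZ0, ← PhiZ1, ← PhiZ2, ← PhiZ3]
  have h := muD_eq' i α
  rw [add_zero, ← add_assoc, ← add_assoc] at h
  exact h

/-- (h1) -/
theorem lam_h1 (i : Fin 3) (α : Fin (6 + 3) →₀ ℕ) (hα : Finsupp.degree α + 1 = 6) :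
    LibGF7.Lf S9 lam9 (LibGF7.gX (LibGF7.PhiP ℤ TA) i α) = 0 := by
  rw [Lf_eq, PhiP_eq]
  unfold LibGF7.gX
  have h : ∀ j : Fin 4, ct (monomial α 1 * pderiv (LibGF7.ix i) (PhiZ j)) (lam9 j) 0 = ct (pderiv (LibGF7.ix i) (PhiZ j)) (lam9 j) α :=
    fun j => ct_mon_mul _ _ _
  rw [Finset.sum_congr rfl fun j _ => h j]
  have h2 := muD_eq (LibGF7.ix (r := 6) i) α
  refine h2.symm.trans ?_
  have hi : ((LibGF7.ix (r := 6) i : Fin (6 + 3)) : ℕ) < 3 := i.2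
  refine zero1 _ hi α ?_
  rw [wt_deg]
  have : Finsupp.degree α = 5 := by omega
  exact this

/-- the exponents of the `u`-variables -/
def ug (β : Fin (6 + 4) →₀ ℕ) : List ℕ := [β 4, β 5, β 6, β 7, β 8, β 9]

theorem pos_uw (β : Fin (6 + 4) →₀ ℕ) : pos uw (ug β) = β 4 + β 5 + β 6 + β 7 + β 8 + β 9 := by
  change 1 * β 4 + (1 * β 5 + (1 * β 6 + (1 * β 7 + (1 * β 8 + (1 * β 9 + 0))))) = _
  omega

theorem ug_mem (β : Fin (6 + 4) →₀ ℕ) : ug β ∈ monos uw (β 4 + β 5 + β 6 + β 7 + β 8 + β 9) := by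
  rw [mem_monos (by decide)]
  exact ⟨rfl, pos_uw β⟩

theorem weight_eq (β : Fin (6 + 4) →₀ ℕ) : Finsupp.weight (LibGF7.wt 6) β =
    2 * β 0 + 2 * β 1 + 2 * β 2 + 2 * β 3 + (β 4 + β 5 + β 6 + β 7 + β 8 + β 9) := by
  rw [Finsupp.weight_apply, Finsupp.sum_fintype]
  · simp only [Fin.sum_univ_succ]
    simp [LibGF7.wt]
    ring_nf
  · intro i
    exact zero_smul _ _

theorem prod_eq' (a b c d : ℕ) : prodP fs FF [a, b, c, d] =
    F0.poly fs ^ a * (F1.poly fs ^ b * (F2.poly fs ^ c * (F3.poly fs ^ d * 1))) := rfl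

theorem mon_eq (s : List ℕ) (t : List ℕ) : (monomial (toFs s t) 1 : MvPolynomial (Fin s.length) ℤ) = ∏ i : Fin s.length, X i ^ t.getD i 0 := by
  rw [monomial_eq, C_1, one_mul]
  rw [Finsupp.prod_fintype _ _ (fun i => pow_zero _)]
  rfl

/-- exponent lists in nine variables -/
noncomputable def ex9 (t : List ℕ) : Fin 9 →₀ ℕ := toFs fs t

/-- products of powers in nine variables -/
noncomputable def prod9 (ks : List ℕ) : MvPolynomial (Fin 9) ℤ := prodP fs FF ks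

theorem mon9 (t : List ℕ) : (monomial (ex9 t) 1 : MvPolynomial (Fin 9) ℤ) = ∏ i : Fin 9, X i ^ t.getD i 0 := mon_eq fs t

theorem prod9_eq (a b c d : ℕ) : prod9 [a, b, c, d] = PhiZ 0 ^ a * (PhiZ 1 ^ b * (PhiZ 2 ^ c * (PhiZ 3 ^ d * 1))) := by
  rw [← PhiZ0, ← PhiZ1, ← PhiZ2, ← PhiZ3]
  exact prod_eq' _ _ _ _

theorem fb_eq (β : Fin (6 + 4) →₀ ℕ) : LibGF7.fb (r := 6) PhiZ β = monomial (ex9 (emb (ug β))) 1 * prod9 [β 0, β 1, β 2, β 3] := by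
  have h2 : LibGF7.fb (r := 6) PhiZ β = ∏ j : Fin (6 + 4), LibGF7.unfP (r := 6) PhiZ j ^ β j := by
    unfold LibGF7.fb
    exact Finsupp.prod_fintype _ _ fun i => pow_zero _
  rw [prod9_eq, mon9, h2]
  have hY : ∀ j : Fin (6 + 4), LibGF7.unfP (r := 6) PhiZ j = (![PhiZ 0, PhiZ 1, PhiZ 2, PhiZ 3, X 3, X 4, X 5, X 6, X 7, X 8] : Fin 10 → MvPolynomial (Fin 9) ℤ) j := by
    intro j
    fin_cases j <;> rfl
  rw [Finset.prod_congr rfl fun j _ => by rw [hY j]]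
  simp only [Fin.prod_univ_succ]
  simp [emb, ug]
  ring

/-- the conclusion of the checks -/
theorem good_use {d : ℕ} {μ : (Fin 9 →₀ ℕ) → ℤ} (h : Good fs uw emb FF d μ) (β : Fin (6 + 4) →₀ ℕ)
    (hβ : Finsupp.weight (LibGF7.wt 6) β = d) : ct (LibGF7.fb (r := 6) PhiZ β) μ 0 = 0 := by
  rw [fb_eq, ct_mon_mul]
  refine h [β 0, β 1, β 2, β 3] rfl (β 4 + β 5 + β 6 + β 7 + β 8 + β 9) ?_ (ug β) (ug_mem β)
  rw [← hβ, weight_eq]
  change (2 * β 0 + (2 * β 1 + (2 * β 2 + (2 * β 3 + 0)))) + _ = _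
  omega

theorem ct_zero_left {σ : Type*} (μ : (σ →₀ ℕ) → ℤ) (α : σ →₀ ℕ) : ct 0 μ α = 0 := map_zero (ctl μ α)

/-- (h2) -/
theorem lam_h2 (j₀ : Fin 4) (β : Fin (6 + 4) →₀ ℕ) (hβ : Finsupp.weight (LibGF7.wt 6) β = 6) :
    LibGF7.Lf S9 lam9 (LibGF7.gY (LibGF7.PhiP ℤ TA) j₀ β) = 0 := by
  rw [Lf_eq, PhiP_eq]
  unfold LibGF7.gY
  rw [Finset.sum_eq_single j₀]
  · rw [if_pos rfl]
    exact good_use (good2 j₀) β hβ
  · intro j _ hj
    rw [if_neg hj]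
    exact ct_zero_left _ _
  · intro h
    exact absurd (Finset.mem_univ _) h

/-- (h3) -/
theorem lam_h3 (a : Fin 6) (β : Fin (6 + 4) →₀ ℕ) (hβ : Finsupp.weight (LibGF7.wt 6) β + 1 = 6) :
    LibGF7.Lf S9 lam9 (LibGF7.gU (LibGF7.PhiP ℤ TA) a β) = 0 := by
  rw [Lf_eq, PhiP_eq]
  unfold LibGF7.gU
  have h : ∀ j : Fin 4, ct (LibGF7.fb (r := 6) PhiZ β * pderiv (LibGF7.iu a) (PhiZ j)) (lam9 j) 0 =
      ct (LibGF7.fb (r := 6) PhiZ β) (ct (pderiv (LibGF7.iu a) (PhiZ j)) (lam9 j)) 0 := fun j => by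
    rw [ct_mul]
  rw [Finset.sum_congr rfl fun j _ => h j, ← ct_sum_right]
  have h2 : (fun α => ∑ j, ct (pderiv (LibGF7.iu a : Fin (6 + 3)) (PhiZ j)) (lam9 j) α) = muD (LibGF7.iu a : Fin (6 + 3)) := by
    funext α
    exact (muD_eq _ α).symm
  rw [h2]
  have e : ((LibGF7.iu a : Fin (6 + 3)) : ℕ) = (a : ℕ) + 3 := rfl
  exact good_use (good3 _ (by rw [e]; omega) (by rw [e]; omega)) β (by omega)

end Pool.Agent.Mond61F
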