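import Pool.Agent.Mond61F.M3
import Pool.Agent.Mond61F.CV

set_option autoImplicit false

/-! The functional: its value. -/

namespace Pool.Agent.Mond61F

open Pool.Agent.Mond61 MvPolynomial
open Pool.Agent.LibMX34 (TA)

theorem fok_all : (FF.all fun F => and (Nat.blt (cs F.gp * (2 * fH)) (2 ^ 64)) (and (Nat.blt (cs F.gm * (2 * fH)) (2 ^ 64))
    (Nat.ble (cs F.gp + cs F.gm) 8))) = true := by
  decide +kernel

theorem FOK8 : FOK fs fw 64 fH 8 FF := by
  intro F hF
  obtain ⟨_, h1, h2⟩ := tw_FF F hF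
  have := List.all_eq_true.1 fok_all F hF
  rw [Bool.and_eq_true, Bool.and_eq_true] at this
  refine ⟨h1, h2, ?_, ?_, Nat.le_of_ble_eq_true this.2.2⟩
  · have h := this.1
    simpa [Nat.blt_eq] using h
  · have h := this.2.1
    simpa [Nat.blt_eq] using h

theorem hem3 (α : Fin fs.length →₀ ℕ) (hα : Pure fs 3 α) : ∃ m', m'.length = uw.length ∧ α = toFs fs (emb m') := by
  have h : ∃ m', m'.length = 6 ∧ (α : Fin 9 →₀ ℕ) = (toFs fs (emb m') : Fin 9 →₀ ℕ) := by
    let β : Fin 9 →₀ ℕ := α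
    refine ⟨[β 3, β 4, β 5, β 6, β 7, β 8], rfl, ?_⟩
    ext i
    have h0 : β 0 = 0 := hα (0 : Fin 9) (by decide)
    have h1 : β 1 = 0 := hα (1 : Fin 9) (by decide)
    have h2 : β 2 = 0 := hα (2 : Fin 9) (by decide)
    fin_cases i
    · exact h0
    · exact h1
    · exact h2
    · rfl
    · rfl
    · rfl
    · rfl
    · rfl
    · rfl
  exact h

theorem tok_spec (l : TL) (h : tokb l = true) : TOK fs fw FF 3 5 5 l := by
  intro t ht
  unfold tokb at h
  have := List.all_eq_true.1 h t ht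
  rw [Bool.and_eq_true, Bool.and_eq_true] at this
  refine ⟨Nat.le_of_ble_eq_true this.1, ?_, Nat.eq_of_beq_eq_true this.2.2⟩
  intro v hv
  have h2 := List.all_eq_true.1 this.2.1 v hv
  rw [Bool.or_eq_true] at h2
  rcases h2 with h2 | h2
  · left
    have : v < 4 := by simpa [Nat.blt_eq] using h2
    exact this
  · right
    have : v - 4 + 3 < 9 := by simpa [Nat.blt_eq] using h2
    exact this

/-- the functionals `x ∘ λ`, `y ∘ λ` -/
theorem rep_mul (N : ℕ) (μ : (Fin fs.length →₀ ℕ) → ℤ) (hN : Rep fs fw 64 fH 6 N μ fb) (t : List ℕ) (ht : t.length = 9) (hw : pos fw t = 1) :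
    Rep fs fw 64 fH 5 (conK 64 fs fH (RR 64 fs fw 5) [⟨N, [(t, 1)], []⟩]) (ct (monomial (toFs fs t) 1) μ) fb := by
  have hcs : cs [(t, 1)] = 1 := rfl
  have r1 := con_rep (w := 64) (H := fH) (b := fb) (b' := fb) (e := 1) (d := 6) (d' := 5) (fok 6 (by decide)) (fok 5 (by decide)) (by norm_num) (by decide) h2H rfl
    [((⟨N, [(t, 1)], []⟩ : CD), μ)] (by simpa using hN)
    (by
      intro c hc
      simp only [List.mem_cons, List.not_mem_nil, or_false] at hc
      subst hc
      intro t' ht'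
      simp only [List.mem_cons, List.not_mem_nil, or_false] at ht'
      subst ht'
      exact ⟨ht, hw⟩)
    (by
      intro c hc
      simp only [List.mem_cons, List.not_mem_nil, or_false] at hc
      subst hc
      intro t' ht'
      simp at ht')
    (by
      change (1 + 0) * (2 * fH) < 2 ^ 64
      decide)
    (by
      change 0 * (2 * fH) < 2 ^ 64
      decide)
    (by
      change ((1 + 0) + (0 + 0)) * fb ≤ fb
      decide)
    (by decide)
  rw [conF_single] at r1
  have e : plist fs [(t, 1)] - plist fs [] = monomial (toFs fs t) 1 := by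
    have e1 : plist fs [] = 0 := rfl
    have e2 : plist fs [(t, 1)] = monomial (toFs fs t) ((1 : ℕ) : ℤ) + 0 := rfl
    rw [e1, e2, sub_zero, add_zero]
    rfl
  have r2 : Rep fs fw 64 fH 5 (conK 64 fs fH (RR 64 fs fw 5) [⟨N, [(t, 1)], []⟩]) (ct (plist fs [(t, 1)] - plist fs []) μ) fb := r1
  rw [e] at r2
  exact r2

/-- the value on a term list -/
theorem vl_eq (N : ℕ) (μ : (Fin fs.length →₀ ℕ) → ℤ) (hN : Rep fs fw 64 fH 5 N μ fb) (l : TL) (hl : tokb l = true) (v c : ℕ)
    (h1 : vl N l = v) (h2 : cs l = c) : ct (pvL (xF fs FF 3) l) μ 0 = (v : ℤ) - fH * c := by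
  have := valL_spec (q := 5) (K := 8) fok uok subok (by norm_num) h2H (by norm_num) FF FOK8 hem3 5 N fb μ (by decide) (by decide)
    (by decide) hN l (tok_spec l hl)
  have h3 : ((vl N l : ℕ) : ℤ) = ct (pvL (xF fs FF 3) l) μ 0 + fH * cs l := this
  rw [h1, h2] at h3
  linarith

end Pool.Agent.Mond61F
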