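import Pool.Agent.Mond61F.M4

set_option autoImplicit false

/-! The functional: its value on the vector of the certificate. -/

namespace Pool.Agent.Mond61F

open Pool.Agent.Mond61 MvPolynomial
open Pool.Agent.LibMX34 (TA)

/-- the point `(F_0, .., F_3, u_1, .., u_6)` -/
noncomputable def xZ (v : ℕ) : MvPolynomial (Fin 9) ℤ := xF fs FF 3 v

theorem xZ_eq (v : Fin (6 + 4)) : xZ v = LibGF7.unfP (r := 6) PhiZ v := by
  fin_cases v
  · exact PhiZ0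
  · exact PhiZ1
  · exact PhiZ2
  · exact PhiZ3
  all_goals rfl

/-- `W_0, W_1, W_2, A` at the point `(F, u)` -/
noncomputable def w0 : MvPolynomial (Fin 9) ℤ := pvL xZ lW0p - pvL xZ lW0m
noncomputable def w1 : MvPolynomial (Fin 9) ℤ := pvL xZ lW1p - pvL xZ lW1m
noncomputable def w2 : MvPolynomial (Fin 9) ℤ := pvL xZ lW2p - pvL xZ lW2m
noncomputable def wA : MvPolynomial (Fin 9) ℤ := pvL xZ lAp - pvL xZ lAm

/-- the vector of the certificate -/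
noncomputable def tv : Fin 4 → LibGF7.P ℤ 6 :=
  ![0, (16 * w0 - wA) * X 0, 16 * w1 * X 0 + (16 * w2 - wA) * X 1, 0]

theorem ct16 {σ : Type*} (μ : (σ →₀ ℕ) → ℤ) (g : MvPolynomial σ ℤ) (α : σ →₀ ℕ) : ct (16 * g) μ α = 16 * ct g μ α := by
  have h : (16 : MvPolynomial σ ℤ) * g = (16 : ℤ) • g := by
    rw [smul_eq_C_mul]
    simp
  rw [h]
  change ctl μ α _ = 16 * ctl μ α _
  rw [map_smul, smul_eq_mul]

theorem ct_sub' {σ : Type*} (μ : (σ →₀ ℕ) → ℤ) (g h : MvPolynomial σ ℤ) (α : σ →₀ ℕ) : ct (g - h) μ α = ct g μ α - ct h μ α := by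
  rw [ct_sub_left]
  rfl

theorem X0_eq : (X 0 : MvPolynomial (Fin 9) ℤ) = monomial (ex9 [1,0,0,0,0,0,0,0,0]) 1 := by
  rw [mon9]
  simp [Fin.prod_univ_succ]

theorem X1_eq : (X 1 : MvPolynomial (Fin 9) ℤ) = monomial (ex9 [0,1,0,0,0,0,0,0,0]) 1 := by
  rw [mon9]
  simp [Fin.prod_univ_succ]

noncomputable def nu0 : (Fin 9 →₀ ℕ) → ℤ := ct (X 0) (lam9 1)
noncomputable def nu1 : (Fin 9 →₀ ℕ) → ℤ := ct (X 0) (lam9 2)
noncomputable def nu2 : (Fin 9 →₀ ℕ) → ℤ := ct (X 1) (lam9 2)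

theorem rn0 : Rep fs fw 64 fH 5 m0 nu0 fb := by
  unfold nu0
  rw [X0_eq]
  exact rep_mul n1 (mu 1) r1 [1,0,0,0,0,0,0,0,0] rfl rfl

theorem rn1 : Rep fs fw 64 fH 5 m1 nu1 fb := by
  unfold nu1
  rw [X0_eq]
  exact rep_mul n2 (mu 2) r2 [1,0,0,0,0,0,0,0,0] rfl rfl

theorem rn2 : Rep fs fw 64 fH 5 m2 nu2 fb := by
  unfold nu2
  rw [X1_eq]
  exact rep_mul n2 (mu 2) r2 [0,1,0,0,0,0,0,0,0] rfl rfl

theorem e_w0 : ct w0 nu0 0 = -188139175368 - -155373972180 := by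
  have a : ct (pvL xZ lW0p) nu0 0 = _ := vl_eq m0 nu0 rn0 lW0p tlW0p _ _ vW0p slW0p
  have b : ct (pvL xZ lW0m) nu0 0 = _ := vl_eq m0 nu0 rn0 lW0m tlW0m _ _ vW0m slW0m
  unfold w0
  rw [ct_sub', a, b]
  have h : fH = 1125899906842624 := rfl
  rw [h]
  norm_num

theorem e_A0 : ct wA nu0 0 = -635735970240 - 326083043712 := by
  have a : ct (pvL xZ lAp) nu0 0 = _ := vl_eq m0 nu0 rn0 lAp tlAp _ _ vA0p slAp
  have b : ct (pvL xZ lAm) nu0 0 = _ := vl_eq m0 nu0 rn0 lAm tlAm _ _ vA0m slAm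
  unfold wA
  rw [ct_sub', a, b]
  have h : fH = 1125899906842624 := rfl
  rw [h]
  norm_num

theorem e_w1 : ct w1 nu1 0 = -4141525024 - -369817996256 := by
  have a : ct (pvL xZ lW1p) nu1 0 = _ := vl_eq m1 nu1 rn1 lW1p tlW1p _ _ vW1p slW1p
  have b : ct (pvL xZ lW1m) nu1 0 = _ := vl_eq m1 nu1 rn1 lW1m tlW1m _ _ vW1m slW1m
  unfold w1
  rw [ct_sub', a, b]
  have h : fH = 1125899906842624 := rfl
  rw [h]
  norm_num

theorem e_w2 : ct w2 nu2 0 = -482496645248 - -81547983712 := by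
  have a : ct (pvL xZ lW2p) nu2 0 = _ := vl_eq m2 nu2 rn2 lW2p tlW2p _ _ vW2p slW2p
  have b : ct (pvL xZ lW2m) nu2 0 = _ := vl_eq m2 nu2 rn2 lW2m tlW2m _ _ vW2m slW2m
  unfold w2
  rw [ct_sub', a, b]
  have h : fH = 1125899906842624 := rfl
  rw [h]
  norm_num

theorem e_A2 : ct wA nu2 0 = 0 := by
  have a : ct (pvL xZ lAp) nu2 0 = _ := vl_eq m2 nu2 rn2 lAp tlAp _ _ vA2p slAp
  have b : ct (pvL xZ lAm) nu2 0 = _ := vl_eq m2 nu2 rn2 lAm tlAm _ _ vA2m slAm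
  unfold wA
  rw [ct_sub', a, b]
  have h : fH = 1125899906842624 := rfl
  rw [h]
  norm_num

/-- the value -/
theorem Lf_tv : LibGF7.Lf S9 lam9 tv = -126779281920 := by
  have h1 : ct (tv 1) (lam9 1) 0 = 16 * ct w0 nu0 0 - ct wA nu0 0 := by
    change ct ((16 * w0 - wA) * X 0) (lam9 1) 0 = _
    rw [ct_mul, ct_sub', ct16]
    rfl
  have h2 : ct (tv 2) (lam9 2) 0 = 16 * ct w1 nu1 0 + (16 * ct w2 nu2 0 - ct wA nu2 0) := by
    change ct (16 * w1 * X 0 + (16 * w2 - wA) * X 1) (lam9 2) 0 = _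
    rw [ct_add_left, Pi.add_apply, ct_mul (16 * w1), ct_mul (16 * w2 - wA), ct_sub', ct16, ct16]
    rfl
  have h0 : ct (tv 0) (lam9 0) 0 = 0 := ct_zero_left _ _
  have h3 : ct (tv 3) (lam9 3) 0 = 0 := ct_zero_left _ _
  rw [Lf_eq, Fin.sum_univ_four, h0, h1, h2, h3, e_w0, e_A0, e_w1, e_w2, e_A2]
  norm_num

theorem Lf_tv_ne : LibGF7.Lf S9 lam9 tv ≠ 0 := by
  rw [Lf_tv]
  norm_num

end Pool.Agent.Mond61F
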