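import Pool.Agent.Mond61F.M5
import Pool.Agent.LibGF7.Hne

set_option autoImplicit false

/-! `W_0, W_1, W_2, A` as polynomials in the target variables. -/

namespace Pool.Agent.Mond61F

open Pool.Agent.Mond61 MvPolynomial
open Pool.Agent.LibMX34 (TA)

theorem xZ_ge (v : ℕ) (hv : ¬ v < 6 + 4) : xZ v = 0 := by
  have h : xF fs FF 3 v = 0 := by
    unfold xF
    have h1 : FF.length = 4 := rfl
    have h2 : fs.length = 9 := rfl
    rw [if_neg (by omega), dif_neg (by omega)]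
  exact h

theorem aeval_xT (v : ℕ) : aeval (LibGF7.unfP (r := 6) (LibGF7.PhiP ℤ TA)) (xT v) = xZ v := by
  rw [PhiP_eq]
  unfold xT
  by_cases h : v < 6 + 4
  · rw [dif_pos h, aeval_X]
    exact (xZ_eq ⟨v, h⟩).symm
  · rw [dif_neg h, map_zero, xZ_ge v h]

theorem aeval_pvL (l : TL) : aeval (LibGF7.unfP (r := 6) (LibGF7.PhiP ℤ TA)) (pvL xT l) = pvL xZ l := by
  have h := pvL_map (aeval (LibGF7.unfP (r := 6) (LibGF7.PhiP ℤ TA)) : MvPolynomial (Fin (6 + 4)) ℤ →ₐ[ℤ] MvPolynomial (Fin (6 + 3)) ℤ).toRingHom xT l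
  have h2 : (fun i => (aeval (LibGF7.unfP (r := 6) (LibGF7.PhiP ℤ TA)) : MvPolynomial (Fin (6 + 4)) ℤ →ₐ[ℤ] MvPolynomial (Fin (6 + 3)) ℤ).toRingHom (xT i)) = xZ := by
    funext i
    exact aeval_xT i
  rw [h2] at h
  exact h

theorem aeval_W0T : aeval (LibGF7.unfP (r := 6) (LibGF7.PhiP ℤ TA)) W0T = w0 := by
  unfold W0T w0
  rw [map_sub, aeval_pvL, aeval_pvL]
theorem aeval_W1T : aeval (LibGF7.unfP (r := 6) (LibGF7.PhiP ℤ TA)) W1T = w1 := by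
  unfold W1T w1
  rw [map_sub, aeval_pvL, aeval_pvL]
theorem aeval_W2T : aeval (LibGF7.unfP (r := 6) (LibGF7.PhiP ℤ TA)) W2T = w2 := by
  unfold W2T w2
  rw [map_sub, aeval_pvL, aeval_pvL]
theorem aeval_WAT : aeval (LibGF7.unfP (r := 6) (LibGF7.PhiP ℤ TA)) WAT = wA := by
  unfold WAT wA
  rw [map_sub, aeval_pvL, aeval_pvL]

/-- the vector of the certificate, in terms of the polynomials in the target variables -/
theorem tv_eq : tv = ![0, (16 * aeval (LibGF7.unfP (r := 6) (LibGF7.PhiP ℤ TA)) W0T - aeval (LibGF7.unfP (r := 6) (LibGF7.PhiP ℤ TA)) WAT) * X 0,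
    16 * aeval (LibGF7.unfP (r := 6) (LibGF7.PhiP ℤ TA)) W1T * X 0 +
      (16 * aeval (LibGF7.unfP (r := 6) (LibGF7.PhiP ℤ TA)) W2T - aeval (LibGF7.unfP (r := 6) (LibGF7.PhiP ℤ TA)) WAT) * X 1, 0] := by
  rw [aeval_W0T, aeval_W1T, aeval_W2T, aeval_WAT]
  rfl

theorem vP_eq : LibGF7.vP W0T W1T W2T WAT = tv := by
  rw [tv_eq]
  unfold LibGF7.vP
  rw [map_sub, map_mul, map_mul, map_sub, map_mul, map_ofNat]

/-- the hypothesis `hne` of `R_cert` -/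
theorem hne (k : Type) [Field k] [CharZero k] :
    (Fin.cons 0 (Fin.cons (MvPowerSeries.subst (LibMX34.unf k (LibMX34.Phi0 k TA)) (16 * LibGF7.zS k W0T - LibGF7.zS k WAT) * MvPowerSeries.X 0)
      (Fin.cons (MvPowerSeries.subst (LibMX34.unf k (LibMX34.Phi0 k TA)) (16 * LibGF7.zS k W1T) * MvPowerSeries.X 0 +
        MvPowerSeries.subst (LibMX34.unf k (LibMX34.Phi0 k TA)) (16 * LibGF7.zS k W2T - LibGF7.zS k WAT) * MvPowerSeries.X 1)
      (Fin.cons 0 fun _ : Fin 6 => 0))) : Fin 10 → MvPowerSeries (Fin 9) k) ∉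
      LibMX34.tangentSource k (LibMX34.unf k (LibMX34.Phi0 k TA)) ⊔ LibMX34.tangentTarget k (LibMX34.unf k (LibMX34.Phi0 k TA)) :=
  LibGF7.hne_of W0T W1T W2T WAT 6 S9 S9_deg lam9 lam_h1 lam_h2 lam_h3 (by rw [vP_eq]; exact Lf_tv_ne) k

end Pool.Agent.Mond61F
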