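import Pool.Agent.Mond61.Contract5

set_option autoImplicit false

/-! `W_0, W_1, W_2, A` (data of helper35) as transparent term lists: digits `0..3` = `Y_1..Y_4`, `4..9` = `u_1..u_6`. -/

namespace Pool.Agent.Mond61F

open Pool.Agent.Mond61 MvPolynomial


def lW0p : TL := [
  ([0,0,4],45264),
  ([0,0,8],11184),
  ([0,2,8],34128),
  ([0,3,4],61140),
  ([0,3,6],23784),
  ([0,3,7],21576),
  ([0,4,4,4],45978),
  ([0,4,4,5],177396),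
  ([0,4,4,8],54212),
  ([0,4,4,9],46308),
  ([0,4,5,8],22740),
  ([0,4,8,9],58282),
  ([0,5,5,7],2616),
  ([0,6,6,7],88716),
  ([0,6,7,7],288558),
  ([0,6,8,9],85892),
  ([0,7,7,7],110296),
  ([0,8,8,8],6712),
  ([0,9,9,9],42885),
  ([1,1,5],2142),
  ([1,1,8],7944),
  ([1,2,6],7140),
  ([1,2,8],13536),
  ([1,4,4,4],38550),
  ([1,4,4,6],19432),
  ([1,4,4,7],39648),
  ([1,4,4,8],29592),
  ([1,4,6,8],8288),
  ([1,4,6,9],21108),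
  ([1,4,7,8],12304),
  ([1,4,7,9],49216),
  ([1,4,8,8],3066),
  ([1,5,5,5],19614),
  ([1,5,5,8],54231),
  ([1,5,7,8],2022),
  ([1,5,9,9],5598),
  ([1,6,6,6],27728),
  ([1,6,6,7],39928),
  ([1,6,6,9],18932),
  ([1,6,7,7],18528),
  ([1,6,7,9],87938),
  ([1,6,8,8],4424),
  ([1,7,7,7],6912),
  ([1,7,7,9],65621),
  ([1,7,8,8],36812),
  ([1,8,8,8],4440),
  ([1,9,9,9],12396),
  ([2,2,5],918),
  ([2,2,7],1056),
  ([2,2,9],4308),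
  ([2,3,4],7164),
  ([2,3,5],34464),
  ([2,3,8],8052),
  ([2,3,9],30024),
  ([2,4,4,6],9096),
  ([2,4,4,7],6504),
  ([2,4,5,5],82740),
  ([2,4,5,8],76684),
  ([2,4,5,9],25350),
  ([2,4,6,8],17816),
  ([2,4,7,8],1848),
  ([2,4,9,9],75162),
  ([2,5,6,6],26232),
  ([2,5,6,7],52608),
  ([2,5,6,9],105572),
  ([2,5,7,7],47568),
  ([2,5,7,9],45201),
  ([2,5,8,8],22216),
  ([2,5,8,9],38624),
  ([2,6,6,9],13400),
  ([2,7,9,9],19980),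
  ([3,3,8],18984),
  ([3,4,4,4],170454),
  ([3,4,4,5],18420),
  ([3,4,4,8],36402),
  ([3,4,4,9],26406),
  ([3,4,5,6],17278),
  ([3,4,5,7],223442),
  ([3,4,5,8],10980),
  ([3,4,6,6],8828),
  ([3,4,7,7],23904),
  ([3,4,8,8],2582),
  ([3,4,8,9],51678),
  ([3,5,5,5],35070),
  ([3,5,5,6],119640),
  ([3,5,5,7],40776),
  ([3,5,5,9],30792),
  ([3,5,6,8],73776),
  ([3,5,7,8],71386),
  ([3,5,7,9],11700),
  ([3,5,8,8],18936),
  ([3,6,6,8],37000),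
  ([3,6,7,8],18560),
  ([3,6,8,9],3434),
  ([3,8,8,9],13744),
  ([4,4,4,4,5],119888),
  ([4,4,4,4,6],65968),
  ([4,4,4,4,7],40992),
  ([4,4,4,4,9],112608),
  ([4,4,4,5,5],119748),
  ([4,4,4,5,8],214509),
  ([4,4,4,5,9],7275),
  ([4,4,4,6,8],22568),
  ([4,4,4,7,8],67812),
  ([4,4,4,8,9],156618),
  ([4,4,5,7,7],31740),
  ([4,4,6,8,8],6696),
  ([4,4,7,8,8],28968),
  ([4,4,8,9,9],34106),
  ([4,5,5,5,7],116346),
  ([4,5,5,9,9],22699),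
  ([4,5,6,6,6],144448),
  ([4,5,6,6,7],927210),
  ([4,5,6,7,7],1350442),
  ([4,5,6,8,9],251740),
  ([4,5,7,7,7],481260),
  ([4,5,7,8,9],281288),
  ([4,5,9,9,9],101914),
  ([4,6,6,6,6],74824),
  ([4,6,6,6,7],160368),
  ([4,6,6,7,9],113330),
  ([4,6,7,7,9],276221),
  ([4,7,7,7,9],93302),
  ([4,8,8,9,9],8236),
  ([5,5,5,5,9],25109),
  ([5,5,5,6,6],127452),
  ([5,5,5,6,7],216678),
  ([5,5,5,7,7],96151),
  ([5,5,5,7,8],78276),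
  ([5,5,5,8,9],17534),
  ([5,5,6,6,6],55264),
  ([5,5,6,6,7],222644),
  ([5,5,6,7,7],78064),
  ([5,5,9,9,9],10971),
  ([5,6,6,6,8],30420),
  ([5,6,6,7,8],443076),
  ([5,6,6,9,9],37116),
  ([5,6,7,7,8],644106),
  ([5,6,8,8,9],94374),
  ([5,7,7,7,8],246557),
  ([5,7,7,7,9],47236),
  ([5,7,8,8,9],64278),
  ([5,8,8,8,8],9362),
  ([5,8,9,9,9],26838),
  ([5,9,9,9,9],2278),
  ([6,6,6,6,6],171520),
  ([6,6,6,6,7],692548),
  ([6,6,6,6,8],46232),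
  ([6,6,6,7,7],1028382),
  ([6,6,6,7,8],272652),
  ([6,6,6,8,9],52852),
  ([6,6,7,7,7],596398),
  ([6,6,7,7,8],394744),
  ([6,6,7,8,9],82615),
  ([6,6,7,9,9],36410),
  ([6,6,8,8,8],25852),
  ([6,6,8,8,9],54974),
  ([6,6,9,9,9],41003),
  ([6,7,7,7,7],82784),
  ([6,7,7,7,8],220040),
  ([6,7,7,8,9],30793),
  ([6,7,7,9,9],17912),
  ([6,7,8,8,8],8732),
  ([6,7,8,8,9],42696),
  ([6,7,9,9,9],7825),
  ([6,8,8,8,8],5048),
  ([6,8,8,9,9],30586),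
  ([7,7,7,7,8],40080),
  ([7,7,7,8,9],1924),
  ([7,8,8,8,8],2280),
  ([7,8,9,9,9],8076),
  ([8,8,8,8,9],1372),
  ([8,9,9,9,9],3310)]

def lW0m : TL := [
  ([0,0,6],30264),
  ([0,0,7],4512),
  ([0,1,5],19854),
  ([0,1,6],83160),
  ([0,1,7],29136),
  ([0,1,9],102744),
  ([0,2,4],4584),
  ([0,2,5],4392),
  ([0,2,9],33024),
  ([0,3,8],7416),
  ([0,4,5,6],417436),
  ([0,4,5,7],250724),
  ([0,4,6,6],160808),
  ([0,4,6,7],130112),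
  ([0,4,6,9],139076),
  ([0,4,7,7],15480),
  ([0,4,7,9],163646),
  ([0,4,8,8],78954),
  ([0,5,5,5],55302),
  ([0,5,5,6],155104),
  ([0,5,5,9],91592),
  ([0,5,6,8],120308),
  ([0,5,6,9],49432),
  ([0,5,7,8],74358),
  ([0,5,7,9],50396),
  ([0,5,8,8],5280),
  ([0,5,9,9],4212),
  ([0,6,6,6],135168),
  ([0,6,6,8],101848),
  ([0,6,7,8],127868),
  ([0,6,9,9],5976),
  ([0,7,7,8],60048),
  ([0,7,8,9],4185),
  ([0,7,9,9],20166),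
  ([0,8,8,9],24022),
  ([1,1,4],14172),
  ([1,1,9],31812),
  ([1,2,4],31260),
  ([1,2,7],9744),
  ([1,3,5],40314),
  ([1,3,6],49608),
  ([1,3,7],64176),
  ([1,3,9],21504),
  ([1,4,5,5],83598),
  ([1,4,5,6],74932),
  ([1,4,5,7],16524),
  ([1,4,5,9],176568),
  ([1,4,9,9],28143),
  ([1,5,5,9],44319),
  ([1,5,6,6],56584),
  ([1,5,6,7],126240),
  ([1,5,6,8],27380),
  ([1,5,7,7],50721),
  ([1,5,8,9],107388),
  ([1,6,8,9],82116),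
  ([1,7,8,9],88096),
  ([1,8,9,9],27379),
  ([2,2,6],3792),
  ([2,4,4,5],120546),
  ([2,4,4,9],10326),
  ([2,4,6,6],109040),
  ([2,4,6,7],161464),
  ([2,4,7,7],96642),
  ([2,4,8,9],4517),
  ([2,5,5,6],56870),
  ([2,5,5,7],12858),
  ([2,5,5,8],1776),
  ([2,6,6,8],26648),
  ([2,6,7,8],78180),
  ([2,6,7,9],72208),
  ([2,6,8,8],3440),
  ([2,6,9,9],31434),
  ([2,7,7,8],37202),
  ([2,7,7,9],67480),
  ([2,7,8,8],2760),
  ([2,8,8,9],4664),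
  ([2,8,9,9],472),
  ([3,3,4],31860),
  ([3,3,6],25728),
  ([3,3,7],55080),
  ([3,4,6,7],31004),
  ([3,4,6,9],88200),
  ([3,4,7,9],158082),
  ([3,5,6,9],23016),
  ([3,5,9,9],660),
  ([3,6,6,6],137232),
  ([3,6,6,7],162720),
  ([3,6,7,7],105710),
  ([3,6,9,9],31164),
  ([3,7,7,7],28768),
  ([3,7,7,8],1272),
  ([3,7,8,9],15405),
  ([3,7,9,9],12948),
  ([3,8,8,8],988),
  ([3,9,9,9],3831),
  ([4,4,4,6,6],71448),
  ([4,4,4,6,7],256028),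
  ([4,4,4,7,7],258769),
  ([4,4,4,9,9],11868),
  ([4,4,5,5,6],213636),
  ([4,4,5,5,7],163938),
  ([4,4,5,5,8],11772),
  ([4,4,5,6,6],115688),
  ([4,4,5,6,7],37256),
  ([4,4,5,6,9],325480),
  ([4,4,5,7,9],124525),
  ([4,4,5,8,8],11446),
  ([4,4,5,8,9],16852),
  ([4,4,6,6,8],125496),
  ([4,4,6,6,9],17280),
  ([4,4,6,7,8],502564),
  ([4,4,6,7,9],1782),
  ([4,4,6,9,9],24317),
  ([4,4,7,7,8],486908),
  ([4,4,7,7,9],4820),
  ([4,4,7,9,9],122172),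
  ([4,4,8,8,9],25469),
  ([4,5,5,5,5],2006),
  ([4,5,5,5,6],64324),
  ([4,5,5,5,9],160536),
  ([4,5,5,6,8],615280),
  ([4,5,5,6,9],7438),
  ([4,5,5,7,8],549582),
  ([4,5,5,7,9],129384),
  ([4,5,5,8,8],102732),
  ([4,5,6,6,8],284592),
  ([4,5,6,7,8],238580),
  ([4,5,6,9,9],75124),
  ([4,5,7,7,8],25272),
  ([4,5,7,9,9],1008),
  ([4,5,8,8,8],75301),
  ([4,5,8,8,9],32251),
  ([4,6,6,6,9],101900),
  ([4,6,6,7,7],792),
  ([4,6,6,8,8],82172),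
  ([4,6,6,8,9],98210),
  ([4,6,7,7,7],83584),
  ([4,6,7,8,8],238864),
  ([4,6,7,8,9],204758),
  ([4,6,8,8,8],8232),
  ([4,6,8,9,9],22988),
  ([4,6,9,9,9],57420),
  ([4,7,7,7,7],30768),
  ([4,7,7,8,8],239315),
  ([4,7,7,8,9],140740),
  ([4,7,8,8,8],2676),
  ([4,7,8,9,9],123817),
  ([4,7,9,9,9],23778),
  ([4,8,8,8,9],11903),
  ([4,9,9,9,9],9591),
  ([5,5,5,5,5],7248),
  ([5,5,5,5,8],27977),
  ([5,5,5,6,8],84292),
  ([5,5,5,9,9],25392),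
  ([5,5,6,6,9],278198),
  ([5,5,6,7,9],213751),
  ([5,5,6,8,8],10954),
  ([5,5,6,8,9],31020),
  ([5,5,7,7,7],25020),
  ([5,5,7,7,9],31811),
  ([5,5,7,8,8],26445),
  ([5,5,7,8,9],121773),
  ([5,5,8,8,8],27888),
  ([5,5,8,9,9],24359),
  ([5,6,6,6,9],40220),
  ([5,6,6,7,9],183772),
  ([5,6,6,8,8],110800),
  ([5,6,7,7,9],31160),
  ([5,6,7,8,8],105796),
  ([5,6,7,9,9],809),
  ([5,6,8,9,9],71834),
  ([5,7,7,8,8],26712),
  ([5,7,7,9,9],7561),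
  ([5,7,8,9,9],27292),
  ([5,8,8,8,9],10166),
  ([6,6,6,9,9],13056),
  ([6,8,9,9,9],3876),
  ([7,7,7,7,7],20064),
  ([7,7,7,9,9],10488),
  ([7,7,8,8,8],13910),
  ([7,7,8,8,9],19936),
  ([7,7,9,9,9],14031),
  ([7,8,8,9,9],3741),
  ([8,8,8,9,9],376),
  ([9,9,9,9,9],2520)]

def lW1p : TL := [
  ([0,0,8],4440),
  ([0,1,4],18192),
  ([0,1,8],5400),
  ([0,2,6],7224),
  ([0,2,7],13968),
  ([0,3,5],40488),
  ([0,3,9],6768),
  ([0,4,4,6],8160),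
  ([0,4,4,7],23508),
  ([0,4,4,9],23568),
  ([0,4,5,8],32700),
  ([0,4,5,9],31224),
  ([0,4,6,8],392),
  ([0,4,7,8],40864),
  ([0,4,9,9],43227),
  ([0,5,5,6],235876),
  ([0,5,5,7],140496),
  ([0,5,6,7],69706),
  ([0,5,6,9],20852),
  ([0,5,7,7],71364),
  ([0,5,7,9],84816),
  ([0,5,8,8],32988),
  ([0,5,8,9],60639),
  ([0,6,6,8],32560),
  ([0,6,6,9],67464),
  ([0,6,7,9],74640),
  ([0,6,9,9],122676),
  ([0,7,7,8],15316),
  ([0,7,7,9],41268),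
  ([0,7,8,8],388),
  ([0,7,9,9],82332),
  ([0,8,9,9],5718),
  ([1,1,5],11196),
  ([1,1,6],4272),
  ([1,1,7],5040),
  ([1,2,5],15060),
  ([1,2,8],10296),
  ([1,3,4],21156),
  ([1,3,8],25752),
  ([1,4,4,4],33132),
  ([1,4,4,8],47544),
  ([1,4,4,9],6624),
  ([1,4,5,8],16997),
  ([1,4,6,6],27872),
  ([1,4,6,7],86752),
  ([1,4,7,7],30048),
  ([1,4,8,9],44596),
  ([1,5,5,5],8628),
  ([1,5,5,6],70686),
  ([1,5,5,7],101676),
  ([1,5,5,9],111180),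
  ([1,6,7,8],34512),
  ([1,7,7,8],13248),
  ([1,7,8,9],39728),
  ([1,8,8,8],10392),
  ([1,8,8,9],18096),
  ([1,9,9,9],8016),
  ([2,2,4],1512),
  ([2,2,8],5784),
  ([2,3,5],106464),
  ([2,3,6],29040),
  ([2,3,7],14088),
  ([2,4,4,4],6444),
  ([2,4,4,8],9810),
  ([2,4,5,5],48642),
  ([2,4,5,6],37392),
  ([2,4,5,7],46284),
  ([2,4,5,9],89394),
  ([2,4,9,9],44532),
  ([2,5,6,6],240588),
  ([2,5,6,7],537448),
  ([2,5,7,7],255096),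
  ([2,5,8,9],139020),
  ([2,6,6,6],31304),
  ([2,6,6,7],150368),
  ([2,6,6,9],250160),
  ([2,6,7,7],180536),
  ([2,6,7,9],347272),
  ([2,6,8,8],22656),
  ([2,6,8,9],95888),
  ([2,7,7,7],63456),
  ([2,7,7,9],164364),
  ([2,7,8,8],20336),
  ([2,7,8,9],76584),
  ([2,8,8,8],352),
  ([2,8,9,9],10812),
  ([2,9,9,9],3060),
  ([3,3,4],7524),
  ([3,3,8],1512),
  ([3,3,9],15984),
  ([3,4,4,5],33972),
  ([3,4,4,7],47880),
  ([3,4,5,9],83736),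
  ([3,4,7,8],47488),
  ([3,4,8,9],14172),
  ([3,5,5,8],31176),
  ([3,5,6,9],101544),
  ([3,5,7,9],67332),
  ([3,6,6,8],13056),
  ([3,6,6,9],30768),
  ([3,6,7,9],47892),
  ([3,6,8,8],21596),
  ([3,6,9,9],5856),
  ([3,7,7,9],7440),
  ([3,7,8,8],28376),
  ([3,8,8,9],2040),
  ([3,8,9,9],2172),
  ([4,4,4,5,7],54936),
  ([4,4,4,5,9],106506),
  ([4,4,4,6,8],37956),
  ([4,4,4,7,9],3564),
  ([4,4,5,5,9],9630),
  ([4,4,5,6,6],840364),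
  ([4,4,5,6,7],1117026),
  ([4,4,5,6,8],115062),
  ([4,4,5,7,7],443940),
  ([4,4,5,9,9],111819),
  ([4,4,6,6,6],7416),
  ([4,4,6,6,7],11624),
  ([4,4,6,6,9],54560),
  ([4,4,6,7,7],154360),
  ([4,4,6,7,9],116276),
  ([4,4,6,8,8],99002),
  ([4,4,7,7,7],83040),
  ([4,4,7,7,9],26952),
  ([4,4,7,8,8],47068),
  ([4,4,8,8,8],2913),
  ([4,5,5,5,6],387128),
  ([4,5,5,5,7],190824),
  ([4,5,5,5,8],112517),
  ([4,5,5,6,6],12008),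
  ([4,5,5,8,8],122574),
  ([4,5,6,6,8],88012),
  ([4,5,6,6,9],113928),
  ([4,5,6,7,8],641800),
  ([4,5,6,7,9],193782),
  ([4,5,7,7,8],586818),
  ([4,5,7,7,9],30156),
  ([4,6,6,6,6],261012),
  ([4,6,6,6,7],510332),
  ([4,6,6,6,8],52492),
  ([4,6,6,7,7],322196),
  ([4,6,6,7,8],100644),
  ([4,6,7,7,7],86240),
  ([4,6,7,7,8],196844),
  ([4,6,7,8,9],84520),
  ([4,6,8,8,8],7204),
  ([4,6,8,8,9],33626),
  ([4,6,9,9,9],30912),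
  ([4,7,7,7,7],10608),
  ([4,7,7,7,8],80144),
  ([4,7,7,8,9],58252),
  ([4,7,8,8,8],46322),
  ([4,7,8,8,9],19474),
  ([4,7,9,9,9],24732),
  ([4,8,8,8,8],750),
  ([4,8,8,9,9],9252),
  ([4,8,9,9,9],14480),
  ([5,5,5,5,5],21336),
  ([5,5,5,5,6],75110),
  ([5,5,5,5,9],56268),
  ([5,5,5,6,8],640584),
  ([5,5,5,6,9],29940),
  ([5,5,5,7,8],472006),
  ([5,5,5,7,9],205356),
  ([5,5,5,9,9],5352),
  ([5,5,6,6,6],78428),
  ([5,5,6,6,8],141024),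
  ([5,5,6,7,8],365078),
  ([5,5,7,7,8],183016),
  ([5,5,8,8,8],20988),
  ([5,5,8,8,9],28402),
  ([5,6,6,8,8],26804),
  ([5,6,7,8,8],164832),
  ([5,6,8,8,8],24372),
  ([5,6,8,9,9],22552),
  ([5,7,7,8,8],172558),
  ([5,7,8,9,9],29594),
  ([5,8,8,9,9],13822),
  ([5,9,9,9,9],24792),
  ([6,6,8,9,9],1538),
  ([6,7,7,7,8],109072),
  ([6,7,7,9,9],7888),
  ([6,7,8,9,9],27780),
  ([6,8,9,9,9],30672),
  ([6,9,9,9,9],5568),
  ([7,7,7,7,8],101136),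
  ([7,7,7,7,9],15840),
  ([7,7,7,8,8],16976),
  ([7,7,7,9,9],43464),
  ([7,7,8,9,9],21400),
  ([7,8,8,8,9],10760),
  ([7,8,9,9,9],9880),
  ([7,9,9,9,9],6384),
  ([8,8,8,9,9],252),
  ([9,9,9,9,9],1440)]

def lW1m : TL := [
  ([0,0,4],34884),
  ([0,0,5],40464),
  ([0,0,9],18144),
  ([0,1,6],93864),
  ([0,1,7],84108),
  ([0,2,5],69624),
  ([0,2,9],14472),
  ([0,3,4],46752),
  ([0,3,8],30072),
  ([0,4,4,5],88860),
  ([0,4,5,5],77136),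
  ([0,4,6,6],214288),
  ([0,4,6,7],387432),
  ([0,4,7,7],159840),
  ([0,4,8,9],46404),
  ([0,5,5,8],12844),
  ([0,5,6,6],7528),
  ([0,6,7,8],4600),
  ([0,6,8,8],7436),
  ([0,8,8,9],8628),
  ([1,1,9],33072),
  ([1,2,4],33300),
  ([1,2,9],648),
  ([1,3,6],54984),
  ([1,3,7],168),
  ([1,4,4,5],43074),
  ([1,4,5,6],42422),
  ([1,4,5,7],17400),
  ([1,4,6,9],55616),
  ([1,4,7,9],53940),
  ([1,4,8,8],18084),
  ([1,5,6,8],25996),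
  ([1,5,6,9],135924),
  ([1,5,7,8],20298),
  ([1,5,7,9],187596),
  ([1,5,8,8],42968),
  ([1,5,9,9],72660),
  ([1,6,6,6],40640),
  ([1,6,6,7],86972),
  ([1,6,6,8],1912),
  ([1,6,7,7],57192),
  ([1,6,8,9],3792),
  ([1,6,9,9],25536),
  ([1,7,7,7],23328),
  ([1,7,9,9],2544),
  ([2,2,6],17784),
  ([2,2,7],9072),
  ([2,3,9],17496),
  ([2,4,4,6],151344),
  ([2,4,4,7],135360),
  ([2,4,6,8],2712),
  ([2,4,6,9],44664),
  ([2,4,7,8],9636),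
  ([2,4,7,9],11568),
  ([2,4,8,8],3196),
  ([2,5,5,5],47724),
  ([2,5,5,8],115056),
  ([2,5,5,9],7608),
  ([2,5,6,8],40144),
  ([2,5,7,8],37164),
  ([2,5,9,9],40380),
  ([3,3,5],26568),
  ([3,4,4,6],30960),
  ([3,4,4,9],32196),
  ([3,4,5,5],65634),
  ([3,4,5,8],122262),
  ([3,4,6,6],163160),
  ([3,4,6,7],441016),
  ([3,4,6,8],8812),
  ([3,4,7,7],229608),
  ([3,4,9,9],3711),
  ([3,5,5,6],613428),
  ([3,5,5,7],537180),
  ([3,5,6,6],73488),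
  ([3,5,6,7],198642),
  ([3,5,7,7],113808),
  ([3,5,8,8],42060),
  ([3,5,8,9],32769),
  ([3,6,7,8],147112),
  ([3,7,7,8],116656),
  ([3,7,9,9],120),
  ([4,4,4,4,4],8034),
  ([4,4,4,4,6],260770),
  ([4,4,4,4,7],145308),
  ([4,4,4,4,8],10913),
  ([4,4,4,5,5],205926),
  ([4,4,4,5,6],762),
  ([4,4,4,6,9],23484),
  ([4,4,4,7,8],58810),
  ([4,4,4,8,8],8500),
  ([4,4,4,9,9],28572),
  ([4,4,5,5,5],80844),
  ([4,4,5,5,8],156810),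
  ([4,4,5,7,8],10196),
  ([4,4,5,8,9],38766),
  ([4,4,6,8,9],121282),
  ([4,4,7,8,9],67760),
  ([4,4,8,9,9],33828),
  ([4,4,9,9,9],32277),
  ([4,5,5,6,7],127200),
  ([4,5,5,6,9],123970),
  ([4,5,5,7,7],5244),
  ([4,5,5,7,9],32448),
  ([4,5,5,8,9],80481),
  ([4,5,6,8,8],93448),
  ([4,5,6,9,9],102502),
  ([4,5,7,8,8],84995),
  ([4,5,7,9,9],65244),
  ([4,5,8,8,9],149676),
  ([4,5,8,9,9],10372),
  ([4,6,6,8,9],1998),
  ([4,6,6,9,9],3623),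
  ([4,6,7,9,9],20259),
  ([4,7,7,9,9],12792),
  ([5,5,5,5,7],66060),
  ([5,5,5,8,8],28900),
  ([5,5,6,6,7],802920),
  ([5,5,6,7,7],1432908),
  ([5,5,6,8,9],478216),
  ([5,5,6,9,9],5214),
  ([5,5,7,7,7],581784),
  ([5,5,7,8,9],337048),
  ([5,5,7,9,9],101292),
  ([5,5,9,9,9],77580),
  ([5,6,6,6,6],320),
  ([5,6,6,6,7],66442),
  ([5,6,6,6,9],401668),
  ([5,6,6,7,7],181070),
  ([5,6,6,7,9],703638),
  ([5,6,6,8,9],60039),
  ([5,6,7,7,7],137648),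
  ([5,6,7,7,9],394840),
  ([5,6,7,8,9],121273),
  ([5,6,9,9,9],31364),
  ([5,7,7,7,7],30336),
  ([5,7,7,7,9],30192),
  ([5,7,7,8,9],58590),
  ([5,7,8,8,8],14548),
  ([5,7,9,9,9],18540),
  ([5,8,8,8,9],9804),
  ([6,6,6,6,8],70776),
  ([6,6,6,6,9],80936),
  ([6,6,6,7,8],130768),
  ([6,6,6,7,9],202720),
  ([6,6,6,8,8],33556),
  ([6,6,6,9,9],105476),
  ([6,6,7,7,8],85524),
  ([6,6,7,7,9],163160),
  ([6,6,7,8,8],70976),
  ([6,6,7,9,9],142636),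
  ([6,6,8,8,9],123716),
  ([6,7,7,7,9],26592),
  ([6,7,7,8,8],7224),
  ([6,7,8,8,9],134704),
  ([6,8,8,8,8],14880),
  ([6,8,8,8,9],512),
  ([7,7,8,8,9],7500),
  ([7,8,8,8,8],128),
  ([8,8,8,8,8],856),
  ([8,8,9,9,9],3816)]

def lW2p : TL := [
  ([0,0,5],35472),
  ([0,0,6],3048),
  ([0,0,7],23520),
  ([0,0,9],27552),
  ([0,1,5],35814),
  ([0,2,4],19632),
  ([0,2,8],55896),
  ([0,3,6],12024),
  ([0,3,9],3600),
  ([0,4,4,4],47082),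
  ([0,4,4,6],556720),
  ([0,4,4,7],403992),
  ([0,4,5,5],151832),
  ([0,4,5,6],45356),
  ([0,4,5,7],18416),
  ([0,4,6,8],106800),
  ([0,4,6,9],134064),
  ([0,4,7,8],147664),
  ([0,4,7,9],48266),
  ([0,5,5,8],129680),
  ([0,5,5,9],37004),
  ([0,5,6,6],207528),
  ([0,5,6,7],712584),
  ([0,5,6,8],52716),
  ([0,5,7,7],382472),
  ([0,5,7,8],29422),
  ([0,5,8,9],83968),
  ([0,6,6,6],55896),
  ([0,6,6,7],47400),
  ([0,6,6,9],355536),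
  ([0,6,7,9],687252),
  ([0,6,8,8],341384),
  ([0,7,7,9],284344),
  ([0,7,8,8],215464),
  ([0,8,8,8],14144),
  ([0,9,9,9],11829),
  ([1,1,4],27156),
  ([1,2,5],5376),
  ([1,2,9],24528),
  ([1,3,4],72912),
  ([1,3,8],48384),
  ([1,3,9],160224),
  ([1,4,4,5],69818),
  ([1,4,4,6],224648),
  ([1,4,4,7],182336),
  ([1,4,4,9],267044),
  ([1,4,5,5],16990),
  ([1,4,5,9],116373),
  ([1,4,6,7],96392),
  ([1,4,7,7],78384),
  ([1,4,8,9],122060),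
  ([1,5,5,6],118056),
  ([1,5,5,7],102576),
  ([1,5,7,7],87759),
  ([1,5,7,9],43492),
  ([1,6,6,8],253688),
  ([1,6,6,9],84324),
  ([1,6,7,8],414128),
  ([1,6,7,9],95538),
  ([1,6,8,8],60032),
  ([1,6,9,9],293136),
  ([1,7,7,8],118128),
  ([1,7,9,9],127712),
  ([1,8,8,9],52896),
  ([1,8,9,9],168989),
  ([2,2,4],864),
  ([2,2,5],6366),
  ([2,2,8],7344),
  ([2,3,4],36300),
  ([2,3,7],13248),
  ([2,4,4,4],107988),
  ([2,4,4,5],21246),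
  ([2,4,6,9],206584),
  ([2,4,7,9],155744),
  ([2,4,8,8],48312),
  ([2,4,8,9],8431),
  ([2,5,5,6],40546),
  ([2,5,6,8],193404),
  ([2,5,6,9],9806),
  ([2,5,7,8],79632),
  ([2,5,9,9],2256),
  ([2,6,6,8],9248),
  ([2,6,7,7],46656),
  ([2,6,7,8],95732),
  ([2,6,9,9],141694),
  ([2,7,7,7],99648),
  ([2,7,7,8],41774),
  ([2,7,8,9],14080),
  ([2,7,9,9],155372),
  ([3,3,9],9600),
  ([3,4,4,7],10456),
  ([3,4,5,5],179892),
  ([3,4,5,6],57800),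
  ([3,4,6,8],245888),
  ([3,4,7,8],188112),
  ([3,4,8,8],35038),
  ([3,4,9,9],105864),
  ([3,5,5,5],155706),
  ([3,5,6,6],160656),
  ([3,5,6,8],67136),
  ([3,5,7,8],58430),
  ([3,6,6,9],168768),
  ([3,6,7,9],129112),
  ([3,7,7,9],18008),
  ([3,7,8,8],10640),
  ([3,8,9,9],23784),
  ([3,9,9,9],30297),
  ([4,4,4,5,6],41408),
  ([4,4,4,5,8],106451),
  ([4,4,4,6,6],343416),
  ([4,4,4,6,7],282348),
  ([4,4,4,6,9],24880),
  ([4,4,4,7,7],31807),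
  ([4,4,4,7,9],110868),
  ([4,4,5,5,6],357576),
  ([4,4,5,5,7],4262),
  ([4,4,5,5,9],89140),
  ([4,4,5,6,8],75856),
  ([4,4,5,8,8],9052),
  ([4,4,6,6,8],162576),
  ([4,4,6,7,8],94616),
  ([4,4,7,7,8],33196),
  ([4,4,7,8,9],23284),
  ([4,4,8,8,9],46418),
  ([4,4,9,9,9],3192),
  ([4,5,5,5,5],56178),
  ([4,5,5,6,7],819556),
  ([4,5,5,7,7],481548),
  ([4,5,5,7,8],39992),
  ([4,5,5,8,9],284120),
  ([4,5,5,9,9],117087),
  ([4,5,6,6,7],51020),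
  ([4,5,6,6,9],769024),
  ([4,5,6,7,7],248334),
  ([4,5,6,7,9],206522),
  ([4,5,6,8,8],289212),
  ([4,5,7,7,7],160620),
  ([4,5,7,7,9],4728),
  ([4,5,7,8,8],379926),
  ([4,5,8,8,8],43901),
  ([4,6,6,6,8],22752),
  ([4,6,6,6,9],199696),
  ([4,6,6,7,8],173892),
  ([4,6,6,7,9],396412),
  ([4,6,6,8,8],226036),
  ([4,6,6,9,9],63080),
  ([4,6,7,7,8],978288),
  ([4,6,7,7,9],306841),
  ([4,6,7,8,8],253724),
  ([4,6,7,9,9],95380),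
  ([4,6,8,8,9],169154),
  ([4,6,8,9,9],24607),
  ([4,7,7,7,8],609344),
  ([4,7,7,7,9],76046),
  ([4,7,7,8,8],39021),
  ([4,7,7,9,9],192),
  ([4,7,8,8,9],182208),
  ([4,7,8,9,9],211961),
  ([4,8,8,8,8],9908),
  ([4,8,8,8,9],5523),
  ([4,8,9,9,9],40248),
  ([4,9,9,9,9],28709),
  ([5,5,5,5,6],60696),
  ([5,5,5,5,7],57104),
  ([5,5,5,6,7],204018),
  ([5,5,5,6,9],169560),
  ([5,5,5,7,7],31623),
  ([5,5,5,7,9],172628),
  ([5,5,5,8,8],119208),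
  ([5,5,6,6,9],89106),
  ([5,5,6,7,9],121241),
  ([5,5,6,8,8],30334),
  ([5,5,7,7,8],82064),
  ([5,5,7,7,9],257993),
  ([5,5,8,8,9],89176),
  ([5,5,8,9,9],29549),
  ([5,6,6,6,6],184440),
  ([5,6,6,6,7],1525256),
  ([5,6,6,7,7],248440),
  ([5,6,6,8,9],873424),
  ([5,6,6,9,9],40136),
  ([5,6,7,8,9],72750),
  ([5,6,7,9,9],33320),
  ([5,6,8,8,8],59680),
  ([5,6,8,8,9],138976),
  ([5,6,9,9,9],92688),
  ([5,7,7,7,8],9605),
  ([5,7,8,8,8],12960),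
  ([5,7,8,8,9],58406),
  ([5,8,8,8,8],14030),
  ([5,8,9,9,9],44408),
  ([6,6,6,6,9],29904),
  ([6,7,8,8,8],24324),
  ([7,7,7,7,9],14352),
  ([7,7,9,9,9],34809),
  ([7,8,8,8,9],48528),
  ([8,8,8,8,8],1968)]

def lW2m : TL := [
  ([0,1,4],27360),
  ([0,1,8],20352),
  ([0,1,9],91020),
  ([0,2,6],19992),
  ([0,2,7],27984),
  ([0,3,5],87456),
  ([0,3,7],86136),
  ([0,4,4,8],139556),
  ([0,4,5,9],100424),
  ([0,4,8,8],81954),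
  ([0,4,9,9],94920),
  ([0,5,5,5],40178),
  ([0,5,9,9],59348),
  ([0,6,7,7],215986),
  ([0,6,8,9],15594),
  ([0,7,7,7],130856),
  ([0,7,8,9],73657),
  ([0,8,9,9],8328),
  ([1,1,6],30240),
  ([1,1,7],2016),
  ([1,1,8],11136),
  ([1,2,6],54948),
  ([1,2,7],31344),
  ([1,3,5],93822),
  ([1,4,5,8],79362),
  ([1,4,6,6],45448),
  ([1,4,6,8],103104),
  ([1,4,7,8],116984),
  ([1,4,9,9],14067),
  ([1,5,5,8],128359),
  ([1,5,6,6],27636),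
  ([1,5,6,7],41968),
  ([1,5,6,9],244728),
  ([1,5,8,8],47024),
  ([1,5,8,9],163210),
  ([1,7,7,9],52147),
  ([1,7,8,8],42492),
  ([2,2,9],29076),
  ([2,3,6],20736),
  ([2,3,8],12876),
  ([2,4,4,8],61356),
  ([2,4,4,9],39888),
  ([2,4,5,6],166200),
  ([2,4,5,7],55624),
  ([2,4,5,8],72264),
  ([2,4,6,6],25144),
  ([2,4,6,7],49128),
  ([2,4,7,7],20546),
  ([2,5,5,5],58848),
  ([2,5,5,7],23622),
  ([2,5,5,9],25440),
  ([2,5,7,9],57259),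
  ([2,5,8,8],7508),
  ([2,6,6,6],301176),
  ([2,6,6,7],357216),
  ([2,6,8,9],154568),
  ([2,8,8,8],13344),
  ([2,8,8,9],19680),
  ([2,9,9,9],16896),
  ([3,3,5],4272),
  ([3,3,6],88416),
  ([3,3,7],1896),
  ([3,4,4,4],235686),
  ([3,4,4,6],44152),
  ([3,4,4,8],138762),
  ([3,4,5,7],104186),
  ([3,4,5,9],189156),
  ([3,4,6,9],211472),
  ([3,4,7,9],80998),
  ([3,5,5,8],30264),
  ([3,5,5,9],122100),
  ([3,5,6,7],694960),
  ([3,5,7,7],540128),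
  ([3,5,8,9],207264),
  ([3,5,9,9],28476),
  ([3,6,6,6],286488),
  ([3,6,6,7],994528),
  ([3,6,7,7],808270),
  ([3,6,8,8],57216),
  ([3,6,8,9],162702),
  ([3,7,7,7],194848),
  ([3,7,8,9],62669),
  ([3,8,8,8],25316),
  ([4,4,4,4,4],109034),
  ([4,4,4,4,5],141974),
  ([4,4,4,4,8],69290),
  ([4,4,4,4,9],165295),
  ([4,4,4,5,7],361772),
  ([4,4,4,8,8],69146),
  ([4,4,4,8,9],185064),
  ([4,4,5,5,5],6566),
  ([4,4,5,6,9],76234),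
  ([4,4,5,7,8],28530),
  ([4,4,5,7,9],90343),
  ([4,4,5,9,9],55214),
  ([4,4,6,6,6],1561152),
  ([4,4,6,6,7],2967788),
  ([4,4,6,7,7],1450352),
  ([4,4,6,8,9],47258),
  ([4,4,6,9,9],177299),
  ([4,4,7,7,7],113840),
  ([4,4,7,9,9],126136),
  ([4,4,8,8,8],83190),
  ([4,5,5,5,8],30266),
  ([4,5,5,5,9],137625),
  ([4,5,5,6,6],380876),
  ([4,5,5,6,8],114026),
  ([4,5,6,6,6],127240),
  ([4,5,6,8,9],163606),
  ([4,5,7,8,9],530213),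
  ([4,5,8,9,9],220218),
  ([4,5,9,9,9],50999),
  ([5,5,5,5,8],50391),
  ([5,5,5,6,6],109732),
  ([5,5,5,8,9],13398),
  ([5,5,6,6,8],820832),
  ([5,5,6,7,8],441988),
  ([5,5,6,9,9],234576),
  ([5,5,7,8,8],72059),
  ([5,5,7,9,9],141072),
  ([5,6,6,6,8],112740),
  ([5,6,6,7,8],151188),
  ([5,6,7,7,7],1449152),
  ([5,6,7,7,8],28554),
  ([5,7,7,7,7],666240),
  ([5,7,7,8,9],216400),
  ([5,7,7,9,9],114967),
  ([5,7,9,9,9],20756),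
  ([5,8,8,9,9],92164),
  ([6,6,6,6,6],25208),
  ([6,6,6,6,7],235056),
  ([6,6,6,7,7],660194),
  ([6,6,6,7,9],631988),
  ([6,6,6,8,8],58920),
  ([6,6,6,8,9],243790),
  ([6,6,7,7,7],709378),
  ([6,6,7,7,9],1050688),
  ([6,6,7,8,8],475360),
  ([6,6,7,8,9],727557),
  ([6,6,8,8,8],17420),
  ([6,6,8,9,9],143512),
  ([6,6,9,9,9],8493),
  ([6,7,7,7,7],330784),
  ([6,7,7,7,9],393256),
  ([6,7,7,8,8],333856),
  ([6,7,7,8,9],562599),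
  ([6,7,8,9,9],78304),
  ([6,7,9,9,9],13295),
  ([6,8,8,8,9],52168),
  ([6,8,8,9,9],135718),
  ([6,9,9,9,9],37680),
  ([7,7,7,7,7],56928),
  ([7,7,7,8,8],10496),
  ([7,7,7,8,9],109268),
  ([7,7,8,8,8],3430),
  ([7,7,8,9,9],9928),
  ([7,8,8,9,9],18557),
  ([7,9,9,9,9],3968),
  ([8,8,8,8,9],14732),
  ([8,8,9,9,9],16104),
  ([8,9,9,9,9],13802)]

def lAp : TL := [
  ([0,0,6],178368),
  ([0,0,7],160896),
  ([0,1,5],19488),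
  ([0,1,9],20352),
  ([0,2,4],54720),
  ([0,4,5,6],283520),
  ([0,4,5,7],346384),
  ([0,4,7,9],65584),
  ([0,5,5,9],11664),
  ([0,5,6,8],294496),
  ([0,5,7,8],349152),
  ([1,2,6],76224),
  ([1,2,7],7296),
  ([1,4,4,6],186688),
  ([1,4,4,7],269712),
  ([1,4,5,5],79728),
  ([1,4,5,9],43424),
  ([1,4,6,8],23936),
  ([1,4,7,8],65536),
  ([1,5,5,8],142128),
  ([1,5,6,6],84416),
  ([1,5,8,9],112),
  ([1,6,6,9],167296),
  ([1,6,7,9],277952),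
  ([1,7,7,9],144272),
  ([1,7,8,8],71936),
  ([2,2,5],33456),
  ([2,3,4],58800),
  ([2,3,8],108000),
  ([2,4,4,5],154128),
  ([2,4,6,6],100672),
  ([2,4,6,7],384176),
  ([2,4,7,7],130080),
  ([2,4,8,9],230512),
  ([2,5,5,7],127728),
  ([2,6,9,9],204256),
  ([2,7,7,8],8416),
  ([2,7,9,9],279296),
  ([2,8,8,9],12064),
  ([3,4,4,4],168432),
  ([3,4,4,8],14256),
  ([3,5,5,5],15120),
  ([3,5,5,9],100368),
  ([3,5,9,9],1920),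
  ([3,6,6,6],1344),
  ([3,6,8,9],41888),
  ([3,7,8,9],10160),
  ([3,8,8,8],10016),
  ([3,9,9,9],60336),
  ([4,4,4,4,9],210352),
  ([4,4,4,5,8],64272),
  ([4,4,4,6,6],450384),
  ([4,4,4,6,7],747872),
  ([4,4,4,7,7],300176),
  ([4,4,4,8,9],8496),
  ([4,4,5,5,6],624384),
  ([4,4,5,5,7],190656),
  ([4,4,6,6,8],33456),
  ([4,4,6,7,8],74896),
  ([4,4,7,7,8],203584),
  ([4,5,5,5,9],180592),
  ([4,5,5,6,8],87344),
  ([4,5,6,6,6],199168),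
  ([4,6,6,6,9],796288),
  ([4,6,6,7,9],1930992),
  ([4,6,6,8,8],232672),
  ([4,6,7,7,9],1460816),
  ([4,6,7,8,8],204336),
  ([4,7,7,7,9],497472),
  ([4,7,7,8,8],105616),
  ([4,9,9,9,9],72720),
  ([5,5,5,5,8],1744),
  ([5,5,5,7,7],194512),
  ([5,5,5,8,9],704),
  ([5,5,6,6,9],824624),
  ([5,5,6,7,9],989184),
  ([5,5,7,7,9],166576),
  ([5,5,8,9,9],7808),
  ([5,6,6,9,9],52096),
  ([5,6,8,8,9],118816),
  ([5,8,8,8,8],4928),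
  ([5,8,9,9,9],21152),
  ([6,6,6,6,6],263104),
  ([6,6,6,6,7],435840),
  ([6,6,6,8,9],13792),
  ([6,6,7,8,9],89456),
  ([6,6,8,8,8],14560),
  ([6,6,9,9,9],23728),
  ([6,7,7,8,9],211728),
  ([6,7,8,8,8],35872),
  ([6,7,9,9,9],132592),
  ([6,8,8,9,9],9888),
  ([7,7,7,8,9],163520),
  ([7,7,8,8,8],46240),
  ([7,7,9,9,9],101072),
  ([7,8,8,9,9],7472),
  ([8,9,9,9,9],12832)]

def lAm : TL := [
  ([0,2,8],17376),
  ([0,3,6],95040),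
  ([0,3,7],22656),
  ([0,4,4,4],10464),
  ([0,4,4,8],72016),
  ([0,4,6,9],90496),
  ([0,4,8,8],64704),
  ([0,5,5,5],50976),
  ([0,5,9,9],96512),
  ([0,6,6,6],196608),
  ([0,6,6,7],259968),
  ([0,6,7,7],296416),
  ([0,6,8,9],145760),
  ([0,7,7,7],179072),
  ([0,7,8,9],164432),
  ([0,8,8,8],4640),
  ([0,9,9,9],18864),
  ([1,1,4],39888),
  ([1,1,8],2592),
  ([1,3,5],75024),
  ([1,3,9],178464),
  ([1,4,9,9],35200),
  ([1,5,6,7],31248),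
  ([1,5,7,7],44976),
  ([1,6,8,8],39424),
  ([1,8,9,9],10960),
  ([2,2,9],2400),
  ([2,4,4,9],62496),
  ([2,4,5,8],122864),
  ([2,5,5,6],54560),
  ([2,5,6,9],201376),
  ([2,5,7,9],144880),
  ([2,5,8,8],14672),
  ([2,6,6,8],136736),
  ([2,6,7,8],70304),
  ([3,3,6],180096),
  ([3,3,7],236160),
  ([3,4,5,6],593024),
  ([3,4,5,7],298240),
  ([3,4,6,9],529984),
  ([3,4,7,9],765440),
  ([3,4,8,8],47152),
  ([3,5,6,8],103008),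
  ([3,5,7,8],253856),
  ([3,6,6,7],320896),
  ([3,6,7,7],568672),
  ([3,7,7,7],175360),
  ([4,4,4,4,5],242272),
  ([4,4,5,6,9],605360),
  ([4,4,5,7,9],113200),
  ([4,4,5,8,8],7504),
  ([4,4,6,9,9],609952),
  ([4,4,7,9,9],746288),
  ([4,4,8,8,9],57184),
  ([4,5,5,5,5],15968),
  ([4,5,5,7,8],196416),
  ([4,5,5,9,9],23152),
  ([4,5,6,6,7],952496),
  ([4,5,6,7,7],1531712),
  ([4,5,6,8,9],429072),
  ([4,5,7,7,7],678816),
  ([4,5,7,8,9],423072),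
  ([4,5,8,8,8],2800),
  ([4,5,9,9,9],110560),
  ([4,6,8,9,9],81296),
  ([4,7,8,9,9],227024),
  ([4,8,8,8,9],6768),
  ([5,5,5,6,6],216336),
  ([5,5,5,6,7],9280),
  ([5,5,6,8,8],122608),
  ([5,5,7,8,8],101760),
  ([5,6,6,6,8],323808),
  ([5,6,6,7,8],1303456),
  ([5,6,7,7,8],1723456),
  ([5,6,7,9,9],38560),
  ([5,7,7,7,8],672976),
  ([5,7,7,9,9],30096),
  ([5,7,8,8,9],112448),
  ([6,6,6,7,7],345440),
  ([6,6,7,7,7],1333408),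
  ([6,7,7,7,7],993280),
  ([7,7,7,7,7],226560),
  ([8,8,8,8,9],4544)]

/-- the variables of the target: `0..3` = `Y_1..Y_4`, `4..9` = `u_1..u_6` -/
noncomputable def xT (v : ℕ) : MvPolynomial (Fin (6 + 4)) ℤ := if h : v < 6 + 4 then X ⟨v, h⟩ else 0

noncomputable def W0T : MvPolynomial (Fin (6 + 4)) ℤ := pvL xT lW0p - pvL xT lW0m
noncomputable def W1T : MvPolynomial (Fin (6 + 4)) ℤ := pvL xT lW1p - pvL xT lW1m
noncomputable def W2T : MvPolynomial (Fin (6 + 4)) ℤ := pvL xT lW2p - pvL xT lW2m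
noncomputable def WAT : MvPolynomial (Fin (6 + 4)) ℤ := pvL xT lAp - pvL xT lAm

/-- value of a term list at a point of the target variables -/
theorem eval_pvL {A : Type} [CommRing A] (x : Fin (6 + 4) → A) (y : ℕ → A) (hy : ∀ v : Fin (6 + 4), y v = x v) (hy0 : ∀ v, 6 + 4 ≤ v → y v = 0) (l : TL) :
    aeval x (pvL xT l) = pvL y l := by
  have h := pvL_map (aeval x : MvPolynomial (Fin (6 + 4)) ℤ →ₐ[ℤ] A).toRingHom xT l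
  have h2 : (fun i => (aeval x : MvPolynomial (Fin (6 + 4)) ℤ →ₐ[ℤ] A).toRingHom (xT i)) = y := by
    funext i
    change aeval x (xT i) = y i
    unfold xT
    by_cases h : i < 6 + 4
    · rw [dif_pos h, aeval_X]
      exact (hy ⟨i, h⟩).symm
    · rw [dif_neg h, map_zero, hy0 i (by omega)]
  rw [h2] at h
  exact h

end Pool.Agent.Mond61F
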